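import Mathlib

/-!
# The maximum of a polynomial on the unit circle and its values at roots of unity
-/

set_option autoImplicit false

namespace Q282PB

open Finset Polynomial

lemma conj_eq_inv {z : ℂ} (hz : ‖z‖ = 1) : (starRingEnd ℂ) z = z⁻¹ := by
  rw [Complex.inv_def, Complex.normSq_eq_norm_sq, hz]
  simp

/-- Parseval's formula. -/
lemma parseval {M : ℕ} (hM : 1 ≤ M) {ζ : ℂ} (hζ : IsPrimitiveRoot ζ M) (c : ℕ → ℂ) :
    ∑ k ∈ range M, ‖∑ j ∈ range M, c j * (ζ ^ k) ^ j‖ ^ 2 = M * ∑ j ∈ range M, ‖c j‖ ^ 2 := by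
  have hz : ‖ζ‖ = 1 := hζ.norm'_eq_one (by omega)
  have hz0 : ζ ≠ 0 := hζ.ne_zero (by omega)
  have h1 : ∀ k, ((‖∑ j ∈ range M, c j * (ζ ^ k) ^ j‖ ^ 2 : ℝ) : ℂ) =
      ∑ i ∈ range M, ∑ j ∈ range M, c i * (starRingEnd ℂ) (c j) * (ζ ^ i * (ζ⁻¹) ^ j) ^ k := by
    intro k
    rw [← Complex.normSq_eq_norm_sq, ← Complex.mul_conj, map_sum, sum_mul_sum]
    refine sum_congr rfl fun i _ => sum_congr rfl fun j _ => ?_
    rw [map_mul, map_pow, map_pow, conj_eq_inv hz]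
    ring
  have h2 : ∀ i ∈ range M, ∀ j ∈ range M, ∑ k ∈ range M, (ζ ^ i * (ζ⁻¹) ^ j) ^ k = if i = j then (M : ℂ) else 0 := by
    intro i hi j hj
    rw [mem_range] at hi hj
    split_ifs with hij
    · subst hij
      have : ζ ^ i * (ζ⁻¹) ^ i = 1 := by rw [← mul_pow, mul_inv_cancel₀ hz0, one_pow]
      rw [this]
      simp
    · have hne : ζ ^ i * (ζ⁻¹) ^ j ≠ 1 := by
        intro h
        apply hij
        have h3 : ζ ^ i = ζ ^ j := by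
          have h4 : ζ ^ i * (ζ⁻¹) ^ j * ζ ^ j = ζ ^ j := by rw [h, one_mul]
          rwa [mul_assoc, ← mul_pow, inv_mul_cancel₀ hz0, one_pow, mul_one] at h4
        exact hζ.pow_inj hi hj h3
      have hp : (ζ ^ i * (ζ⁻¹) ^ j) ^ M = 1 := by
        rw [mul_pow, ← pow_mul, ← pow_mul, mul_comm i M, mul_comm j M, pow_mul, pow_mul, hζ.pow_eq_one, inv_pow, hζ.pow_eq_one]
        simp
      have h5 := geom_sum_mul (ζ ^ i * (ζ⁻¹) ^ j) M
      rw [hp, sub_self] at h5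
      exact (mul_eq_zero.1 h5).resolve_right (sub_ne_zero.2 hne)
  have h3 : ((∑ k ∈ range M, ‖∑ j ∈ range M, c j * (ζ ^ k) ^ j‖ ^ 2 : ℝ) : ℂ) = ((M * ∑ j ∈ range M, ‖c j‖ ^ 2 : ℝ) : ℂ) := by
    rw [Complex.ofReal_sum, sum_congr rfl fun k _ => h1 k, sum_comm]
    push_cast
    rw [mul_sum]
    refine sum_congr rfl fun i hi => ?_
    rw [sum_comm]
    have h4 : ∀ j ∈ range M, ∑ k ∈ range M, c i * (starRingEnd ℂ) (c j) * (ζ ^ i * (ζ⁻¹) ^ j) ^ k =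
        if i = j then c i * (starRingEnd ℂ) (c j) * M else 0 := by
      intro j hj
      rw [← mul_sum, h2 i hi j hj]
      split_ifs
      · rfl
      · rw [mul_zero]
    rw [sum_congr rfl h4, sum_ite_eq, if_pos hi, Complex.mul_conj, Complex.normSq_eq_norm_sq]
    push_cast
    ring
  exact_mod_cast h3

/-- **The maximum on the unit circle.** -/
theorem sup_le (P : ℂ[X]) {M : ℕ} (hP : P.natDegree < M) {ζ : ℂ} (hζ : IsPrimitiveRoot ζ M) (x : ℂ) (hx : ‖x‖ = 1) :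
    ‖P.eval x‖ ^ 2 ≤ ∑ k ∈ range M, ‖P.eval (ζ ^ k)‖ ^ 2 := by
  have h1 : ∀ z, P.eval z = ∑ j ∈ range M, P.coeff j * z ^ j := fun z => eval_eq_sum_range' hP z
  have h2 := parseval (by omega) hζ P.coeff
  have h3 : ∑ k ∈ range M, ‖P.eval (ζ ^ k)‖ ^ 2 = M * ∑ j ∈ range M, ‖P.coeff j‖ ^ 2 := by
    rw [← h2]
    exact sum_congr rfl fun k _ => by rw [h1]
  rw [h3, h1]
  have h4 : ‖∑ j ∈ range M, P.coeff j * x ^ j‖ ≤ ∑ j ∈ range M, 1 * ‖P.coeff j‖ := by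
    refine (norm_sum_le _ _).trans (le_of_eq (sum_congr rfl fun j _ => ?_))
    rw [norm_mul, norm_pow, hx, one_pow, mul_one, one_mul]
  have h5 := sum_mul_sq_le_sq_mul_sq (range M) (fun _ => (1 : ℝ)) (fun j => ‖P.coeff j‖)
  refine (pow_le_pow_left₀ (norm_nonneg _) h4 2).trans (h5.trans (le_of_eq ?_))
  simp

/-- the power of a trigonometric polynomial -/
theorem sup_pow (a : ℕ → ℝ) {h K : ℕ} (hh : 1 ≤ h) (hK : 1 ≤ K) {ζ : ℂ} (hζ : IsPrimitiveRoot ζ (K * h)) (x : ℂ) (hx : ‖x‖ = 1) :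
    ‖∑ m ∈ Ico 1 h, (a m : ℂ) * x ^ m‖ ^ (2 * K) ≤ ∑ k ∈ range (K * h), ‖∑ m ∈ Ico 1 h, (a m : ℂ) * (ζ ^ k) ^ m‖ ^ (2 * K) := by
  obtain ⟨Q, hQ⟩ : ∃ Q : ℂ[X], Q = ∑ m ∈ Ico 1 h, C (a m : ℂ) * X ^ m := ⟨_, rfl⟩
  have hev : ∀ z, Q.eval z = ∑ m ∈ Ico 1 h, (a m : ℂ) * z ^ m := by
    intro z
    rw [hQ, eval_finset_sum]
    refine sum_congr rfl fun m _ => ?_
    simp
  have hdeg : Q.natDegree ≤ h - 1 := by
    rw [hQ]
    refine natDegree_sum_le_of_forall_le _ _ fun m hm => ?_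
    rw [mem_Ico] at hm
    exact (natDegree_C_mul_X_pow_le _ _).trans (by omega)
  have h1 : (Q ^ K).natDegree < K * h := by
    refine (natDegree_pow_le_of_le K hdeg).trans_lt ?_
    exact Nat.mul_lt_mul_of_pos_left (by omega) (by omega)
  have h2 := sup_le (Q ^ K) h1 hζ x hx
  have h3 : ∀ z, ‖(Q ^ K).eval z‖ ^ 2 = ‖∑ m ∈ Ico 1 h, (a m : ℂ) * z ^ m‖ ^ (2 * K) := by
    intro z
    rw [eval_pow, hev, norm_pow, ← pow_mul, mul_comm K 2]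
  rw [h3] at h2
  refine h2.trans (le_of_eq (sum_congr rfl fun k _ => h3 _))

end Q282PB
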