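import Pool.Agent.Q282.PB.Mom
import Pool.Agent.Q282.PB.Four

/-!
# Pullbacks of a family of varieties by tuples of polynomials: no clusters of eigenvalues
-/

set_option autoImplicit false
set_option linter.unusedSectionVars false

namespace Q282PB

open Finset MvPolynomial
open Q282.FF (Place deg Res red PL PB mem_PL mem_PB rt)
open Q282.CL
open Q282QF (fj fj_eq fj_nonneg sum_fj)

lemma count_ge (α : Multiset ℂ) (φ : ℂ → ℝ) (h0 : ∀ a ∈ α, 0 ≤ φ a) (p : ℂ → Prop) [DecidablePred p] (b : ℝ)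
    (hp : ∀ a ∈ α, p a → b ≤ φ a) : b * (Multiset.card (α.filter p) : ℝ) ≤ (α.map φ).sum := by
  induction α using Multiset.induction_on with
  | empty => simp
  | cons a t ih =>
    have h1 := ih (fun a' ha' => h0 a' (Multiset.mem_cons_of_mem ha')) (fun a' ha' => hp a' (Multiset.mem_cons_of_mem ha'))
    have h2 := h0 a (Multiset.mem_cons_self a t)
    rw [Multiset.map_cons, Multiset.sum_cons]
    by_cases h : p a
    · rw [Multiset.filter_cons_of_pos _ h, Multiset.card_cons]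
      have h3 := hp a (Multiset.mem_cons_self a t) h
      push_cast
      linarith
    · rw [Multiset.filter_cons_of_neg _ h]
      linarith

lemma pow_sub_one_le {x : ℂ} (hx : ‖x‖ = 1) (i : ℕ) : ‖x ^ i - 1‖ ≤ i * ‖x - 1‖ := by
  induction i with
  | zero => simp
  | succ i ih =>
    have h1 : x ^ (i + 1) - 1 = x * (x ^ i - 1) + (x - 1) := by ring
    rw [h1]
    refine (norm_add_le _ _).trans ?_
    rw [norm_mul, hx, one_mul]
    push_cast
    linarith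

lemma sum_id (h : ℕ) : ∑ m ∈ range h, (m : ℝ) ≤ h ^ 2 / 2 := by
  have h2 : ∑ m ∈ range h, (m : ℝ) = h * (h - 1) / 2 := by
    induction h with
    | zero => simp
    | succ h ih =>
      rw [sum_range_succ, ih]
      push_cast
      ring
  rw [h2]
  have : (0 : ℝ) ≤ h := Nat.cast_nonneg _
  nlinarith

lemma fj_ge {h : ℕ} (hh : 1 ≤ h) {x : ℂ} (hx : ‖x‖ = 1) (hx1 : ‖x - 1‖ ≤ 1 / h) : (h : ℝ) ^ 2 / 4 ≤ fj (h - 1) x := by
  have hh' : (0 : ℝ) < h := by exact_mod_cast hh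
  rw [fj_eq _ x hx, Complex.normSq_eq_norm_sq]
  have h1 : h - 1 + 1 = h := by omega
  rw [h1]
  have h2 : ‖∑ i ∈ range h, x ^ i - h‖ ≤ h / 2 := by
    have h3 : ∑ i ∈ range h, x ^ i - (h : ℂ) = ∑ i ∈ range h, (x ^ i - 1) := by
      rw [sum_sub_distrib]
      simp
    rw [h3]
    refine (norm_sum_le _ _).trans ?_
    have h4 : ∀ i ∈ range h, ‖x ^ i - 1‖ ≤ i * (1 / h) := fun i _ => (pow_sub_one_le hx i).trans (mul_le_mul_of_nonneg_left hx1 (Nat.cast_nonneg _))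
    refine (sum_le_sum h4).trans ?_
    rw [← sum_mul]
    refine (mul_le_mul_of_nonneg_right (sum_id h) (by positivity)).trans (le_of_eq ?_)
    field_simp
  have h3 : (h : ℝ) / 2 ≤ ‖∑ i ∈ range h, x ^ i‖ := by
    have h4 : (h : ℂ) = ∑ i ∈ range h, x ^ i - (∑ i ∈ range h, x ^ i - h) := by ring
    have h5 := norm_sub_le (∑ i ∈ range h, x ^ i) (∑ i ∈ range h, x ^ i - (h : ℂ))
    rw [← h4] at h5
    have h6 : ‖(h : ℂ)‖ = h := by simp
    rw [h6] at h5
    linarith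
  have h4 : ((h : ℝ) / 2) ^ 2 ≤ ‖∑ i ∈ range h, x ^ i‖ ^ 2 := pow_le_pow_left₀ (by positivity) h3 2
  refine le_trans (le_of_eq ?_) h4
  ring

/-- the kernel of Fejér -/
theorem clus_det (α : Multiset ℂ) {R : ℝ} (hR : 0 < R) (hα : ∀ a ∈ α, ‖a‖ = R) {γ : ℂ} (hγ : ‖γ‖ = R) {h : ℕ} (hh : 1 ≤ h) :
    (h : ℝ) ^ 2 / 4 * (Multiset.card (α.filter fun a => ‖a - γ‖ ≤ R / h) : ℝ) ≤ h * (Multiset.card α : ℝ) +
      2 * ∑ m ∈ Ico 1 h, ((h : ℝ) - m) * ((α.map fun a => a ^ m).sum / γ ^ m).re := by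
  have hh' : (0 : ℝ) < h := by exact_mod_cast hh
  have hγ0 : γ ≠ 0 := by
    rintro rfl
    rw [norm_zero] at hγ
    linarith
  have hn : ∀ a ∈ α, ‖a / γ‖ = 1 := fun a ha => by rw [norm_div, hα a ha, hγ, div_self hR.ne']
  have h1 := count_ge α (fun a => fj (h - 1) (a / γ)) (fun a ha => fj_nonneg _ _ (hn a ha)) (fun a => ‖a - γ‖ ≤ R / h) ((h : ℝ) ^ 2 / 4) (by
    intro a ha hp
    refine fj_ge hh (hn a ha) ?_
    have h2 : a / γ - 1 = (a - γ) / γ := by field_simp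
    rw [h2, norm_div, hγ, div_le_iff₀ hR]
    refine hp.trans (le_of_eq ?_)
    ring)
  rw [sum_fj] at h1
  refine h1.trans (le_of_eq ?_)
  have e1 : h - 1 + 1 = h := by omega
  rw [e1, sum_Ico_eq_sum_range]
  congr 2
  refine sum_congr rfl fun m _ => ?_
  rw [Nat.cast_sub hh]
  have e2 : 1 + m = m + 1 := by omega
  rw [e2]
  push_cast
  ring

section

variable {F : Type} [Field F] [Fintype F] [DecidableEq F] {s : ℕ} {ι : Type} [Fintype ι] [DecidableEq ι]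

/-- the random polynomial -/
noncomputable def QP (r : Place F → ℕ) (G : Set (MvPolynomial (Fin s ⊕ ι) F)) (Z : Set (MvPolynomial ι F)) (w : ℕ) (c : ℕ → ℝ)
    (f : ι → Polynomial F) (h : ℕ) (x : ℂ) : ℂ :=
  ∑ m ∈ Ico 1 h, ((((h : ℝ) - m) * (SS r G Z w c f m - mu r G Z w c m) : ℝ) : ℂ) * x ^ m

lemma geo_sqrt {q : ℝ} (hq : 7 / 5 ≤ q) (h : ℕ) : ∑ m ∈ Ico 1 h, 1 / q ^ m ≤ 5 / 2 := by
  have h1 : ∀ n : ℕ, ∑ m ∈ Ico 1 (n + 1), 1 / q ^ m ≤ 5 / 2 - 5 / 2 * (1 / q ^ n) := by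
    intro n
    induction n with
    | zero => simp
    | succ n ih =>
      rw [sum_Ico_succ_top (by omega)]
      have hqn : 0 < q ^ n := by positivity
      have e : 1 / q ^ n = q * (1 / q ^ (n + 1)) := by
        rw [pow_succ]
        field_simp
      rw [e] at ih
      have h2 : 0 < 1 / q ^ (n + 1) := by positivity
      nlinarith
  rcases h with _ | n
  · simp
    norm_num
  · refine (h1 n).trans ?_
    have : 0 < 1 / q ^ n := by positivity
    linarith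

lemma sqrt_ge' : (7 / 5 : ℝ) ≤ Real.sqrt (Fintype.card F) := by
  refine Real.le_sqrt_of_sq_le ?_
  have : (2 : ℝ) ≤ Fintype.card F := by exact_mod_cast Fintype.one_lt_card (α := F)
  linarith

/-- **The inequality for one member of the family.** -/
theorem clus_le {r : Place F → ℕ} (hr : ∀ v, r v ≤ deg v) {G : Set (MvPolynomial (Fin s ⊕ ι) F)} {Z : Set (MvPolynomial ι F)}
    {w : ℕ} {c : ℕ → ℝ} {C : ℝ} (hC : 0 ≤ C) (hfam : IsFamily G Z w c C) {f : ι → Polynomial F} {B : ℝ} {α : Multiset ℂ}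
    (hα : IsSpectrum G w c f B α) {ε : ℝ} (hε : ε = 1 ∨ ε = -1)
    (hps : ∀ m : ℕ, 1 ≤ m → ‖(α.map fun a => a ^ m).sum / (Real.sqrt (Fintype.card F) ^ ((w + 1) * m) : ℝ) -
          ((ε * SS r G Z w c f m : ℝ) : ℂ)‖ ≤ 2 * C + B / Real.sqrt (Fintype.card F) ^ m)
    {h : ℕ} (hh : 1 ≤ h) {γ : ℂ} (hγ : ‖γ‖ = Real.sqrt (Fintype.card F) ^ (w + 1)) :
    (Multiset.card (α.filter fun a => ‖a - γ‖ ≤ Real.sqrt (Fintype.card F) ^ (w + 1) / h) : ℝ) ≤
      24 * B / h + 12 * C + 8 * ‖QP r G Z w c f h ((Real.sqrt (Fintype.card F) ^ (w + 1) : ℝ) / γ)‖ / h ^ 2 := by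
  obtain ⟨q, hq⟩ : ∃ q : ℝ, q = Real.sqrt (Fintype.card F) := ⟨_, rfl⟩
  have hq75 : 7 / 5 ≤ q := by
    rw [hq]
    exact sqrt_ge'
  have hq0 : 0 < q := by linarith
  obtain ⟨hcard, hnorm, β, β', ε', hε', hB, -, -⟩ := hα
  have hB0 : 0 ≤ B := le_trans (by positivity) hB
  have hh' : (0 : ℝ) < h := by exact_mod_cast hh
  rw [← hq] at hps hγ hnorm ⊢
  have hR : 0 < q ^ (w + 1) := by positivity
  have hγ0 : γ ≠ 0 := by
    rintro rfl
    rw [norm_zero] at hγ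
    linarith
  obtain ⟨x, hx⟩ : ∃ x : ℂ, x = ((q ^ (w + 1) : ℝ) : ℂ) / γ := ⟨_, rfl⟩
  have hx1 : ‖x‖ = 1 := by
    rw [hx, norm_div, hγ, Complex.norm_real, Real.norm_of_nonneg hR.le, div_self hR.ne']
  rw [← hx]
  have h1 := clus_det α hR hnorm hγ hh
  have hε1 : |ε| = 1 := by
    rcases hε with h | h <;> rw [h] <;> norm_num
  have hterm : ∀ m ∈ Ico 1 h, ((h : ℝ) - m) * ((α.map fun a => a ^ m).sum / γ ^ m).re ≤
      ε * (((((h : ℝ) - m) * (SS r G Z w c f m - mu r G Z w c m) : ℝ) : ℂ) * x ^ m).re + ((h : ℝ) - m) * (3 * C) + h * (B * (1 / q ^ m)) := by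
    intro m hm
    rw [mem_Ico] at hm
    have hm1 : (0 : ℝ) ≤ (h : ℝ) - m := by
      have : (m : ℝ) ≤ h := by exact_mod_cast hm.2.le
      linarith
    have hm2 : (h : ℝ) - m ≤ h := by
      have : (0 : ℝ) ≤ m := Nat.cast_nonneg _
      linarith
    have h2 := hps m hm.1
    obtain ⟨e, he⟩ : ∃ e : ℂ, e = (α.map fun a => a ^ m).sum / ((q ^ ((w + 1) * m) : ℝ) : ℂ) - ((ε * SS r G Z w c f m : ℝ) : ℂ) := ⟨_, rfl⟩
    rw [← he] at h2
    have h3 : (α.map fun a => a ^ m).sum / γ ^ m = ((ε * (SS r G Z w c f m - mu r G Z w c m) : ℝ) : ℂ) * x ^ m +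
        ((ε * mu r G Z w c m : ℝ) : ℂ) * x ^ m + e * x ^ m := by
      have hqc : ((q ^ ((w + 1) * m) : ℝ) : ℂ) ≠ 0 := by
        rw [Ne, Complex.ofReal_eq_zero]
        positivity
      have h4 : (α.map fun a => a ^ m).sum = (e + ((ε * SS r G Z w c f m : ℝ) : ℂ)) * ((q ^ ((w + 1) * m) : ℝ) : ℂ) := by
        rw [he]
        field_simp
        ring
      have h5 : x ^ m = ((q ^ ((w + 1) * m) : ℝ) : ℂ) / γ ^ m := by
        rw [hx, div_pow, pow_mul]
        push_cast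
        rfl
      rw [h4, h5]
      push_cast
      ring
    rw [h3]
    have hmu := mu_le hr hC hfam m
    have h6 : (((ε * mu r G Z w c m : ℝ) : ℂ) * x ^ m).re ≤ C := by
      refine (Complex.re_le_norm _).trans ?_
      rw [norm_mul, norm_pow, hx1, one_pow, mul_one, Complex.norm_real, Real.norm_eq_abs, abs_mul, hε1, one_mul]
      exact hmu
    have h7 : (e * x ^ m).re ≤ 2 * C + B / q ^ m := by
      refine (Complex.re_le_norm _).trans ?_
      rw [norm_mul, norm_pow, hx1, one_pow, mul_one]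
      exact h2
    have h8 : ε * (((((h : ℝ) - m) * (SS r G Z w c f m - mu r G Z w c m) : ℝ) : ℂ) * x ^ m).re =
        ((h : ℝ) - m) * (((ε * (SS r G Z w c f m - mu r G Z w c m) : ℝ) : ℂ) * x ^ m).re := by
      rw [Complex.re_ofReal_mul, Complex.re_ofReal_mul]
      ring
    rw [h8, Complex.add_re, Complex.add_re]
    have h9 : ((h : ℝ) - m) * (B / q ^ m) ≤ h * (B * (1 / q ^ m)) := by
      have : B / q ^ m = B * (1 / q ^ m) := by ring
      rw [this]
      exact mul_le_mul_of_nonneg_right hm2 (by positivity)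
    have h10 : ((h : ℝ) - m) * ((((ε * mu r G Z w c m : ℝ) : ℂ) * x ^ m).re + (e * x ^ m).re) ≤ ((h : ℝ) - m) * (3 * C + B / q ^ m) :=
      mul_le_mul_of_nonneg_left (by linarith) hm1
    nlinarith
  have h2 := sum_le_sum hterm
  rw [sum_add_distrib, sum_add_distrib, ← mul_sum, ← Complex.re_sum, ← sum_mul, ← mul_sum, ← mul_sum] at h2
  have h3 : ε * (∑ m ∈ Ico 1 h, ((((h : ℝ) - m) * (SS r G Z w c f m - mu r G Z w c m) : ℝ) : ℂ) * x ^ m).re ≤ ‖QP r G Z w c f h x‖ := by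
    refine (le_abs_self _).trans ?_
    rw [abs_mul, hε1, one_mul]
    exact Complex.abs_re_le_norm _
  have h4 : ∑ m ∈ Ico 1 h, ((h : ℝ) - m) ≤ h ^ 2 / 2 := by
    have h5 : ∑ m ∈ Ico 1 h, ((h : ℝ) - m) ≤ ∑ m ∈ range h, (m : ℝ) := by
      have h6 : ∑ m ∈ Ico 1 h, ((h : ℝ) - m) = ∑ m ∈ Ico 1 h, (((h - m : ℕ)) : ℝ) := by
        refine sum_congr rfl fun m hm => ?_
        rw [mem_Ico] at hm
        rw [Nat.cast_sub hm.2.le]
      rw [h6]
      have h7 : ∑ m ∈ Ico 1 h, (((h - m : ℕ)) : ℝ) = ∑ m ∈ Ico 1 h, (m : ℝ) := by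
        refine sum_nbij' (fun m => h - m) (fun m => h - m) ?_ ?_ ?_ ?_ ?_
        · intro m hm
          rw [mem_Ico] at hm ⊢
          omega
        · intro m hm
          rw [mem_Ico] at hm ⊢
          omega
        · intro m hm
          rw [mem_Ico] at hm
          show h - (h - m) = m
          omega
        · intro m hm
          rw [mem_Ico] at hm
          show h - (h - m) = m
          omega
        · intro m _
          rfl
      rw [h7]
      refine sum_le_sum_of_subset_of_nonneg ?_ fun _ _ _ => Nat.cast_nonneg _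
      intro m hm
      rw [mem_Ico] at hm
      rw [mem_range]
      exact hm.2
    exact h5.trans (sum_id h)
  have h5 := geo_sqrt hq75 h
  have h6 : (∑ m ∈ Ico 1 h, ((h : ℝ) - m)) * (3 * C) ≤ h ^ 2 / 2 * (3 * C) := mul_le_mul_of_nonneg_right h4 (by positivity)
  have h7 : (h : ℝ) * (B * ∑ m ∈ Ico 1 h, 1 / q ^ m) ≤ h * (B * (5 / 2)) :=
    mul_le_mul_of_nonneg_left (mul_le_mul_of_nonneg_left h5 hB0) hh'.le
  obtain ⟨N, hN⟩ : ∃ N : ℝ, N = (Multiset.card (α.filter fun a => ‖a - γ‖ ≤ q ^ (w + 1) / h) : ℝ) := ⟨_, rfl⟩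
  rw [← hN] at h1 ⊢
  have h8 : (h : ℝ) ^ 2 / 4 * N ≤ h * B + 2 * (‖QP r G Z w c f h x‖ + h ^ 2 / 2 * (3 * C) + h * (B * (5 / 2))) := by
    have h9 : (h : ℝ) * (Multiset.card α : ℝ) ≤ h * B := mul_le_mul_of_nonneg_left hcard hh'.le
    linarith
  have h9 : N ≤ 4 / h ^ 2 * (h * B + 2 * (‖QP r G Z w c f h x‖ + h ^ 2 / 2 * (3 * C) + h * (B * (5 / 2)))) := by
    rw [div_mul_eq_mul_div, le_div_iff₀ (by positivity)]
    linarith
  refine h9.trans (le_of_eq ?_)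
  field_simp
  ring

end

end Q282PB
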