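import Pool.Agent.Q282.PB.Pow

/-!
# Pullbacks of a family of varieties by tuples of polynomials: the moments of the power sums
-/

set_option autoImplicit false
set_option linter.unusedSectionVars false

namespace Q282PB

open Finset MvPolynomial
open Q282.FF (Place deg Res red PL PB mem_PL mem_PB rt)
open Q282.CL

section

variable {F : Type} [Field F] [Fintype F] [DecidableEq F] {s : ℕ} {ι : Type} [Fintype ι] [DecidableEq ι]

/-- the main part of the power sum -/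
noncomputable def SS (r : Place F → ℕ) (G : Set (MvPolynomial (Fin s ⊕ ι) F)) (Z : Set (MvPolynomial ι F)) (w : ℕ) (c : ℕ → ℝ)
    (f : ι → Polynomial F) (m : ℕ) : ℝ :=
  (∑ v ∈ PL F m, (r v : ℝ) * y G Z c v (fun i => red v (f i))) / Real.sqrt (Fintype.card F) ^ ((w + 1) * m)

/-- its mean value -/
noncomputable def mu (r : Place F → ℕ) (G : Set (MvPolynomial (Fin s ⊕ ι) F)) (Z : Set (MvPolynomial ι F)) (w : ℕ) (c : ℕ → ℝ)
    (m : ℕ) : ℝ :=
  (∑ v ∈ PL F m, (r v : ℝ) * av (y G Z c v)) / Real.sqrt (Fintype.card F) ^ ((w + 1) * m)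

lemma cardPL_le (m : ℕ) : ((PL F m).card : ℝ) * m ≤ (Fintype.card F : ℝ) ^ m := by
  have h1 := Q282.FF.card_le (k := F) m
  rwa [Nat.card_eq_fintype_card] at h1

variable {r : Place F → ℕ} (hr : ∀ v, r v ≤ deg v) {G : Set (MvPolynomial (Fin s ⊕ ι) F)} {Z : Set (MvPolynomial ι F)}
  {w : ℕ} {c : ℕ → ℝ} {C : ℝ} (hC : 0 ≤ C) (hfam : IsFamily G Z w c C)

include hr hC hfam in
lemma mu_le (m : ℕ) : |mu r G Z w c m| ≤ C := by
  obtain ⟨q, hq⟩ : ∃ q : ℝ, q = Real.sqrt (Fintype.card F) := ⟨_, rfl⟩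
  have hcF : (0 : ℝ) < Fintype.card F := by exact_mod_cast Fintype.card_pos (α := F)
  have hq0 : 0 < q := by
    rw [hq]
    exact Real.sqrt_pos.2 hcF
  have hq2 : q ^ 2 = Fintype.card F := by rw [hq, Real.sq_sqrt hcF.le]
  unfold mu
  rw [← hq, abs_div, abs_of_pos (by positivity : 0 < q ^ ((w + 1) * m)), div_le_iff₀ (by positivity)]
  refine (abs_sum_le_sum_abs _ _).trans ?_
  have h1 : ∀ v ∈ PL F m, |(r v : ℝ) * av (y G Z c v)| ≤ m * (C * q ^ (w * m) / q ^ m) := by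
    intro v hv
    rw [mem_PL] at hv
    rw [abs_mul, Nat.abs_cast]
    have h2 := y_av hfam v
    rw [← hq, hv] at h2
    have h3 : (r v : ℝ) ≤ m := by exact_mod_cast (hr v).trans hv.le
    exact mul_le_mul h3 h2 (abs_nonneg _) (Nat.cast_nonneg _)
  refine (sum_le_sum h1).trans ?_
  rw [sum_const, nsmul_eq_mul, ← mul_assoc]
  refine (mul_le_mul_of_nonneg_right (cardPL_le m) (by positivity)).trans (le_of_eq ?_)
  rw [← hq2]
  have e1 : (q ^ 2) ^ m = q ^ m * q ^ m := by ring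
  have e2 : q ^ ((w + 1) * m) = q ^ (w * m) * q ^ m := by ring
  rw [e1, e2]
  field_simp

include hr hC hfam in
/-- **The moments.** -/
theorem mom (g : ι → Polynomial F) {n h K : ℕ} (hK : 1 ≤ K) (hh : 1 ≤ h) (hn : 2 * K * h ≤ n) (a : ℕ → ℝ) (A : ℝ) (hA : 0 < A)
    (ha : ∀ m ∈ Ico 1 h, |a m| ≤ A) (hC1 : 0 < C) :
    av (fun t : ι → Polynomial.degreeLT F n => (∑ m ∈ Ico 1 h, a m * (SS r G Z w c (fun i => g i + (t i).1) m - mu r G Z w c m)) ^ (2 * K)) ≤
      2 * (2 * K).factorial * (Real.exp 1 * (2 * A ^ 2 * C ^ 2 * h ^ 2) / K) ^ K := by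
  obtain ⟨q, hq⟩ : ∃ q : ℝ, q = Real.sqrt (Fintype.card F) := ⟨_, rfl⟩
  have hcF : (0 : ℝ) < Fintype.card F := by exact_mod_cast Fintype.card_pos (α := F)
  have hq0 : 0 < q := by
    rw [hq]
    exact Real.sqrt_pos.2 hcF
  have hq2 : q ^ 2 = Fintype.card F := by rw [hq, Real.sq_sqrt hcF.le]
  have hh' : (0 : ℝ) < h := by exact_mod_cast hh
  have hneO : ∀ v : Place F, Nonempty (ι → Res v) := fun v => ⟨fun _ => 0⟩
  obtain ⟨ψ, hψ⟩ : ∃ ψ : ∀ v : Place F, (ι → Res v) → ℝ, ψ = fun v u =>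
    a (deg v) * r v / q ^ ((w + 1) * deg v) * (y G Z c v (fun i => red v (g i) + u i) - av (y G Z c v)) := ⟨_, rfl⟩
  have hav : ∀ v : Place F, av (fun u : ι → Res v => y G Z c v (fun i => red v (g i) + u i)) = av (y G Z c v) := by
    intro v
    unfold av
    congr 1
    exact Fintype.sum_equiv (Equiv.addLeft (fun i => red v (g i))) _ _ fun u => rfl
  have hψ0 : ∀ v, av (ψ v) = 0 := by
    intro v
    rw [hψ]
    show av (fun u : ι → Res v => a (deg v) * r v / q ^ ((w + 1) * deg v) * (y G Z c v (fun i => red v (g i) + u i) - av (y G Z c v))) = 0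
    rw [av_mul, av_sub, hav, av_const, sub_self, mul_zero]
  have hψb : ∀ v ∈ PB F h, ∀ u, |ψ v u| ≤ 2 * A * C * (deg v / q ^ deg v) := by
    intro v hv u
    rw [hψ]
    show |a (deg v) * r v / q ^ ((w + 1) * deg v) * (y G Z c v (fun i => red v (g i) + u i) - av (y G Z c v))| ≤ _
    have h1 := ha (deg v) (mem_Ico.2 ⟨Q282.FF.deg_pos v, mem_PB.1 hv⟩)
    have h2 : (r v : ℝ) ≤ deg v := by exact_mod_cast hr v
    have h3 := y_abs hC hfam v (fun i => red v (g i) + u i)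
    have h4 : |av (y G Z c v)| ≤ C * q ^ (w * deg v) := by
      unfold av
      rw [abs_div, Nat.abs_cast]
      have hc : (0 : ℝ) < Fintype.card (ι → Res v) := by exact_mod_cast Fintype.card_pos
      rw [div_le_iff₀ hc]
      refine (abs_sum_le_sum_abs _ _).trans ((sum_le_sum fun u _ => y_abs hC hfam v u).trans ?_)
      rw [sum_const, card_univ, nsmul_eq_mul, ← hq, mul_comm]
    rw [← hq] at h3
    have h5 : |y G Z c v (fun i => red v (g i) + u i) - av (y G Z c v)| ≤ 2 * (C * q ^ (w * deg v)) := by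
      have := abs_sub (y G Z c v (fun i => red v (g i) + u i)) (av (y G Z c v))
      linarith
    rw [abs_mul, abs_div, abs_mul, Nat.abs_cast, abs_of_pos (by positivity : 0 < q ^ ((w + 1) * deg v))]
    have h6 : |a (deg v)| * (r v : ℝ) / q ^ ((w + 1) * deg v) ≤ A * deg v / q ^ ((w + 1) * deg v) := by
      refine div_le_div_of_nonneg_right ?_ (by positivity)
      exact mul_le_mul h1 h2 (Nat.cast_nonneg _) hA.le
    refine (mul_le_mul h6 h5 (abs_nonneg _) (by positivity)).trans (le_of_eq ?_)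
    have e2 : q ^ ((w + 1) * deg v) = q ^ (w * deg v) * q ^ deg v := by ring
    rw [e2]
    field_simp
  have hsum : ∀ t : ι → Polynomial.degreeLT F n, ∑ m ∈ Ico 1 h, a m * (SS r G Z w c (fun i => g i + (t i).1) m - mu r G Z w c m) =
      ∑ v ∈ PB F h, ψ v (rt v t) := by
    intro t
    rw [Q282.FF.sum_PB]
    refine sum_congr rfl fun m _ => ?_
    unfold SS mu
    rw [← hq, ← sub_div, ← sum_sub_distrib, ← mul_div_assoc, mul_sum, sum_div]
    refine sum_congr rfl fun v hv => ?_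
    rw [mem_PL] at hv
    rw [hψ]
    show _ = a (deg v) * r v / q ^ ((w + 1) * deg v) * (y G Z c v (fun i => red v (g i) + red v (t i).1) - av (y G Z c v))
    rw [hv]
    have h1 : (fun i => red v (g i + (t i).1)) = fun i => red v (g i) + red v (t i).1 := by
      funext i
      rw [map_add]
    rw [h1]
    ring
  have e : (fun t : ι → Polynomial.degreeLT F n =>
      (∑ m ∈ Ico 1 h, a m * (SS r G Z w c (fun i => g i + (t i).1) m - mu r G Z w c m)) ^ (2 * K)) =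
      fun t => (∑ v : PB F h, ψ v.1 (rt v.1 t)) ^ (2 * K) := by
    funext t
    rw [hsum, Finset.sum_coe_sort (PB F h) (fun v => ψ v (rt v t))]
  rw [e]
  have key := mom_transfer (α := ι → Polynomial.degreeLT F n) (ι := PB F h) (Ω := fun v => ι → Res v.1)
    (fun v t => ψ v.1 (rt v.1 t)) (fun v x => ψ v.1 x) (η := 0) (m := 2 * K) (by
      intro τ
      have h3 := Q282.FF.mono (ι := ι) (PB F h) (n := n) (D := h) (m := 2 * K) (fun v hv => (mem_PB.1 hv).le) hn ψ τ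
      rw [h3, sub_self, abs_zero])
  rw [mul_zero] at key
  have key2 := sub_eq_zero.1 (abs_nonpos_iff.1 key)
  rw [key2]
  refine mom_le (ι := PB F h) (Ω := fun v => ι → Res v.1) (fun v x => ψ v.1 x) (fun v => hψ0 v.1)
    (b := fun v => 2 * A * C * (deg v.1 / q ^ deg v.1)) (fun v x => hψb v.1 v.2 x) (by positivity) ?_ hK
  rw [Finset.sum_coe_sort (PB F h) (fun v => (2 * A * C * ((deg v : ℝ) / q ^ deg v)) ^ 2), Q282.FF.sum_PB]
  have h1 : ∀ m ∈ Ico 1 h, ∑ v ∈ PL F m, (2 * A * C * ((deg v : ℝ) / q ^ deg v)) ^ 2 ≤ 4 * A ^ 2 * C ^ 2 * m := by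
    intro m _
    have h2 : ∀ v ∈ PL F m, (2 * A * C * ((deg v : ℝ) / q ^ deg v)) ^ 2 = m * (4 * A ^ 2 * C ^ 2 * m / (Fintype.card F : ℝ) ^ m) := by
      intro v hv
      rw [mem_PL] at hv
      rw [hv, ← hq2]
      have : q ^ m ≠ 0 := by positivity
      have e1 : (q ^ 2) ^ m = (q ^ m) ^ 2 := by ring
      rw [e1]
      field_simp
      ring
    rw [sum_congr rfl h2, sum_const, nsmul_eq_mul, ← mul_assoc]
    refine (mul_le_mul_of_nonneg_right (cardPL_le m) (by positivity)).trans (le_of_eq ?_)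
    field_simp
  refine (sum_le_sum h1).trans ?_
  rw [← mul_sum]
  have h2 : ∀ h : ℕ, ∑ m ∈ Ico 1 (h + 1), (m : ℝ) = h * (h + 1) / 2 := by
    intro h
    induction h with
    | zero => simp
    | succ h ih =>
      rw [sum_Ico_succ_top (by omega), ih]
      push_cast
      ring
  obtain ⟨h0, rfl⟩ : ∃ h0, h = h0 + 1 := ⟨h - 1, by omega⟩
  rw [h2]
  have h3 : (h0 : ℝ) * (h0 + 1) / 2 ≤ ((h0 + 1 : ℕ) : ℝ) ^ 2 / 2 := by
    push_cast
    have : (0 : ℝ) ≤ h0 := Nat.cast_nonneg _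
    nlinarith
  calc 4 * A ^ 2 * C ^ 2 * ((h0 : ℝ) * (h0 + 1) / 2) ≤ 4 * A ^ 2 * C ^ 2 * (((h0 + 1 : ℕ) : ℝ) ^ 2 / 2) :=
        mul_le_mul_of_nonneg_left h3 (by positivity)
    _ = 2 * A ^ 2 * C ^ 2 * ((h0 + 1 : ℕ) : ℝ) ^ 2 := by ring

end

end Q282PB
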