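import Pool.Agent.Q282.PB.Clus

/-!
# Pullbacks of a family of varieties by tuples of polynomials: the maximum of the random polynomial
-/

set_option autoImplicit false
set_option linter.unusedSectionVars false

namespace Q282PB

open Finset MvPolynomial
open Q282.FF (Place deg Res red PL PB mem_PL mem_PB rt)
open Q282.CL

section

variable {F : Type} [Field F] [Fintype F] [DecidableEq F] {s : ℕ} {ι : Type} [Fintype ι] [DecidableEq ι]

variable {r : Place F → ℕ} (hr : ∀ v, r v ≤ deg v) {G : Set (MvPolynomial (Fin s ⊕ ι) F)} {Z : Set (MvPolynomial ι F)}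
  {w : ℕ} {c : ℕ → ℝ} {C : ℝ} (hC : 0 < C) (hfam : IsFamily G Z w c C)

lemma fact_le {K : ℕ} (hK : 1 ≤ K) (h : ℕ) (hh : 1 ≤ h) (C : ℝ) (hC : 0 < C) :
    (2 : ℝ) ^ (K - 1) * (2 * (2 * (2 * K).factorial * (Real.exp 1 * (2 * (h : ℝ) ^ 2 * C ^ 2 * h ^ 2) / K) ^ K)) ≤
      2 * (44 * C ^ 2 * K * h ^ 4) ^ K := by
  have hK' : (0 : ℝ) < K := by exact_mod_cast hK
  have hh' : (0 : ℝ) < h := by exact_mod_cast hh
  have h1 : ((2 * K).factorial : ℝ) ≤ (4 * (K : ℝ) ^ 2) ^ K := by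
    have h2 : ((2 * K).factorial : ℝ) ≤ ((2 * K : ℕ) : ℝ) ^ (2 * K) := by exact_mod_cast Nat.factorial_le_pow (2 * K)
    refine h2.trans (le_of_eq ?_)
    rw [pow_mul]
    push_cast
    ring
  have h3 : (2 : ℝ) ^ K = 2 ^ (K - 1) * 2 := by
    rw [← pow_succ]
    congr 1
    omega
  calc (2 : ℝ) ^ (K - 1) * (2 * (2 * (2 * K).factorial * (Real.exp 1 * (2 * (h : ℝ) ^ 2 * C ^ 2 * h ^ 2) / K) ^ K)) =
        2 * 2 ^ K * ((2 * K).factorial * (Real.exp 1 * (2 * (h : ℝ) ^ 2 * C ^ 2 * h ^ 2) / K) ^ K) := by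
        rw [h3]
        ring
    _ ≤ 2 * 2 ^ K * ((4 * (K : ℝ) ^ 2) ^ K * (Real.exp 1 * (2 * (h : ℝ) ^ 2 * C ^ 2 * h ^ 2) / K) ^ K) := by
        refine mul_le_mul_of_nonneg_left (mul_le_mul_of_nonneg_right h1 (by positivity)) (by positivity)
    _ = 2 * (16 * Real.exp 1 * C ^ 2 * K * h ^ 4) ^ K := by
        rw [mul_assoc, ← mul_pow, ← mul_pow]
        congr 2
        field_simp
        ring
    _ ≤ 2 * (44 * C ^ 2 * K * h ^ 4) ^ K := by
        refine mul_le_mul_of_nonneg_left (pow_le_pow_left₀ (by positivity) ?_ K) (by norm_num)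
        have he : Real.exp 1 ≤ 11 / 4 := by
          have := Real.exp_one_lt_d9
          linarith
        have h4 : 0 ≤ C ^ 2 * K * h ^ 4 := by positivity
        nlinarith

include hr hC hfam in
/-- the moments at a point -/
lemma mom_pt (g : ι → Polynomial F) {n h K : ℕ} (hK : 1 ≤ K) (hh : 1 ≤ h) (hn : 2 * K * h ≤ n) {z : ℂ} (hz : ‖z‖ = 1) :
    av (fun t : ι → Polynomial.degreeLT F n => ‖QP r G Z w c (fun i => g i + (t i).1) h z‖ ^ (2 * K)) ≤ 2 * (44 * C ^ 2 * K * h ^ 4) ^ K := by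
  have hh' : (0 : ℝ) < h := by exact_mod_cast hh
  have hb : ∀ u : ℕ → ℝ, (∀ m, |u m| ≤ 1) → ∀ m ∈ Ico 1 h, |((h : ℝ) - m) * u m| ≤ h := by
    intro u hu m hm
    rw [mem_Ico] at hm
    have hm1 : (0 : ℝ) ≤ (h : ℝ) - m := by
      have : (m : ℝ) ≤ h := by exact_mod_cast hm.2.le
      linarith
    have hm2 : (h : ℝ) - m ≤ h := by
      have : (0 : ℝ) ≤ m := Nat.cast_nonneg _
      linarith
    rw [abs_mul, abs_of_nonneg hm1]
    calc ((h : ℝ) - m) * |u m| ≤ ((h : ℝ) - m) * 1 := mul_le_mul_of_nonneg_left (hu m) hm1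
      _ ≤ h := by linarith
  have hre : ∀ m, |(z ^ m).re| ≤ 1 := fun m => (Complex.abs_re_le_norm _).trans (le_of_eq (by rw [norm_pow, hz, one_pow]))
  have him : ∀ m, |(z ^ m).im| ≤ 1 := fun m => (Complex.abs_im_le_norm _).trans (le_of_eq (by rw [norm_pow, hz, one_pow]))
  have m1 := mom hr hC.le hfam g hK hh hn (fun m => ((h : ℝ) - m) * (z ^ m).re) h hh' (hb _ hre) hC
  have m2 := mom hr hC.le hfam g hK hh hn (fun m => ((h : ℝ) - m) * (z ^ m).im) h hh' (hb _ him) hC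
  have hpt : ∀ t : ι → Polynomial.degreeLT F n, ‖QP r G Z w c (fun i => g i + (t i).1) h z‖ ^ (2 * K) ≤
      2 ^ (K - 1) * ((∑ m ∈ Ico 1 h, ((h : ℝ) - m) * (z ^ m).re * (SS r G Z w c (fun i => g i + (t i).1) m - mu r G Z w c m)) ^ (2 * K) +
        (∑ m ∈ Ico 1 h, ((h : ℝ) - m) * (z ^ m).im * (SS r G Z w c (fun i => g i + (t i).1) m - mu r G Z w c m)) ^ (2 * K)) := by
    intro t
    have h1 : (QP r G Z w c (fun i => g i + (t i).1) h z).re =
        ∑ m ∈ Ico 1 h, ((h : ℝ) - m) * (z ^ m).re * (SS r G Z w c (fun i => g i + (t i).1) m - mu r G Z w c m) := by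
      unfold QP
      rw [Complex.re_sum]
      refine sum_congr rfl fun m _ => ?_
      rw [Complex.re_ofReal_mul]
      ring
    have h2 : (QP r G Z w c (fun i => g i + (t i).1) h z).im =
        ∑ m ∈ Ico 1 h, ((h : ℝ) - m) * (z ^ m).im * (SS r G Z w c (fun i => g i + (t i).1) m - mu r G Z w c m) := by
      unfold QP
      rw [Complex.im_sum]
      refine sum_congr rfl fun m _ => ?_
      rw [Complex.im_ofReal_mul]
      ring
    rw [← h1, ← h2, pow_mul, ← Complex.normSq_eq_norm_sq, Complex.normSq_apply, pow_mul, pow_mul, ← sq, ← sq]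
    exact add_pow_le (sq_nonneg _) (sq_nonneg _) K
  refine (av_mono hpt).trans ?_
  rw [av_mul, av_add]
  refine le_trans ?_ (fact_le hK h hh C hC)
  refine mul_le_mul_of_nonneg_left ?_ (by positivity)
  linarith

include hr hC hfam in
open Classical in
/-- **The probability that the random polynomial is large somewhere on the unit circle.** -/
theorem prob_sup (g : ι → Polynomial F) {n h K : ℕ} (hK : 1 ≤ K) (hh : 1 ≤ h) (hn : 2 * K * h ≤ n) {y : ℝ} (hy : 0 < y) :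
    ((univ.filter fun t : ι → Polynomial.degreeLT F n => ∃ x : ℂ, ‖x‖ = 1 ∧ y ≤ ‖QP r G Z w c (fun i => g i + (t i).1) h x‖).card : ℝ) ≤
      2 * (K * h : ℕ) * (44 * C ^ 2 * K * h ^ 4 / y ^ 2) ^ K * Fintype.card (ι → Polynomial.degreeLT F n) := by
  have hM : 0 < K * h := Nat.mul_pos (by omega) (by omega)
  have hζ := Complex.isPrimitiveRoot_exp (K * h) hM.ne'
  obtain ⟨ζ, hζ'⟩ : ∃ ζ : ℂ, ζ = Complex.exp (2 * Real.pi * Complex.I / (K * h : ℕ)) := ⟨_, rfl⟩
  rw [← hζ'] at hζ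
  have hz : ‖ζ‖ = 1 := hζ.norm'_eq_one hM.ne'
  obtain ⟨X, hX⟩ : ∃ X : (ι → Polynomial.degreeLT F n) → ℝ, X = fun t =>
    ∑ k ∈ range (K * h), ‖QP r G Z w c (fun i => g i + (t i).1) h (ζ ^ k)‖ ^ (2 * K) := ⟨_, rfl⟩
  have hX0 : ∀ t, 0 ≤ X t := fun t => by
    rw [hX]
    exact sum_nonneg fun _ _ => by positivity
  have hav : av X ≤ (K * h : ℕ) * (2 * (44 * C ^ 2 * K * h ^ 4) ^ K) := by
    rw [hX, av_sum]
    refine (sum_le_sum fun k _ => mom_pt hr hC hfam g hK hh hn (z := ζ ^ k) (by rw [norm_pow, hz, one_pow])).trans (le_of_eq ?_)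
    rw [sum_const, card_range, nsmul_eq_mul]
  have hc : (0 : ℝ) < Fintype.card (ι → Polynomial.degreeLT F n) := by exact_mod_cast Fintype.card_pos
  have hlarge : ∀ t : ι → Polynomial.degreeLT F n, (∃ x : ℂ, ‖x‖ = 1 ∧ y ≤ ‖QP r G Z w c (fun i => g i + (t i).1) h x‖) → y ^ (2 * K) ≤ X t := by
    rintro t ⟨x, hx, hyx⟩
    rw [hX]
    exact (pow_le_pow_left₀ hy.le hyx (2 * K)).trans
      (sup_pow (fun m => ((h : ℝ) - m) * (SS r G Z w c (fun i => g i + (t i).1) m - mu r G Z w c m)) hh hK hζ x hx)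
  obtain ⟨S, hS⟩ : ∃ S : Finset (ι → Polynomial.degreeLT F n), S = univ.filter fun t : ι → Polynomial.degreeLT F n =>
    ∃ x : ℂ, ‖x‖ = 1 ∧ y ≤ ‖QP r G Z w c (fun i => g i + (t i).1) h x‖ := ⟨_, rfl⟩
  rw [← hS]
  have h1 : (S.card : ℝ) * y ^ (2 * K) ≤ ∑ t, X t := by
    calc (S.card : ℝ) * y ^ (2 * K) = ∑ t ∈ S, y ^ (2 * K) := by rw [sum_const, nsmul_eq_mul]
      _ ≤ ∑ t ∈ S, X t := sum_le_sum fun t ht => by
        rw [hS, mem_filter] at ht
        exact hlarge t ht.2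
      _ ≤ ∑ t, X t := sum_le_sum_of_subset_of_nonneg (subset_univ _) fun t _ _ => hX0 t
  unfold av at hav
  rw [div_le_iff₀ hc] at hav
  have h2 := h1.trans hav
  have hy2 : 0 < y ^ (2 * K) := by positivity
  rw [div_pow, ← pow_mul]
  have e : 2 * ((K * h : ℕ) : ℝ) * ((44 * C ^ 2 * K * h ^ 4) ^ K / y ^ (2 * K)) * Fintype.card (ι → Polynomial.degreeLT F n) =
      ((K * h : ℕ) * (2 * (44 * C ^ 2 * K * h ^ 4) ^ K) * Fintype.card (ι → Polynomial.degreeLT F n)) / y ^ (2 * K) := by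
    field_simp
  rw [e, le_div_iff₀ hy2]
  exact h2

end

open Classical in
/-- **No clusters of eigenvalues.** -/
theorem clusters {F : Type} [Field F] [Fintype F] {s : ℕ} {ι : Type} [Fintype ι] (G : Set (MvPolynomial (Fin s ⊕ ι) F))
    (Z : Set (MvPolynomial ι F)) (w : ℕ) (c : ℕ → ℝ) (C κ : ℝ) (hC : 0 < C) (hκ : 0 ≤ κ) (hfam : IsFamily G Z w c C)
    (g : ι → Polynomial F) (n K : ℕ) (hn : 1 ≤ n) (hK : 1 ≤ K) :
    ((univ.filter fun t : ι → Polynomial.degreeLT F n => MapsTo Z (fun i => g i + (t i).1) ∧ ∃ α : Multiset ℂ,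
      IsSpectrum G w c (fun i => g i + (t i).1) (κ * n) α ∧ ∃ γ : ℂ, ‖γ‖ = Real.sqrt (Fintype.card F) ^ (w + 1) ∧
        100 * (κ + C) * K < Multiset.card (α.filter fun a => ‖a - γ‖ ≤ 2 * K * Real.sqrt (Fintype.card F) ^ (w + 1) / n)).card : ℝ) ≤
      n / (K : ℝ) ^ K * Fintype.card (ι → Polynomial.degreeLT F n) := by
  have hK' : (1 : ℝ) ≤ K := by exact_mod_cast hK
  have hn' : (1 : ℝ) ≤ n := by exact_mod_cast hn
  have hR : 0 < Real.sqrt (Fintype.card F) ^ (w + 1) := by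
    have : 0 < Real.sqrt (Fintype.card F) := Real.sqrt_pos.2 (by exact_mod_cast Fintype.card_pos)
    positivity
  obtain ⟨R, hRR⟩ : ∃ R, R = Real.sqrt (Fintype.card F) ^ (w + 1) := ⟨_, rfl⟩
  rw [← hRR] at hR ⊢
  rcases lt_or_ge n (2 * K) with hlt | hge
  · have h0 : (univ.filter fun t : ι → Polynomial.degreeLT F n => MapsTo Z (fun i => g i + (t i).1) ∧ ∃ α : Multiset ℂ,
      IsSpectrum G w c (fun i => g i + (t i).1) (κ * n) α ∧ ∃ γ : ℂ, ‖γ‖ = R ∧
        100 * (κ + C) * K < Multiset.card (α.filter fun a => ‖a - γ‖ ≤ 2 * K * R / n)) = ∅ := by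
      rw [filter_eq_empty_iff]
      rintro t - ⟨-, α, hα, γ, -, hlt2⟩
      have h1 : (Multiset.card (α.filter fun a => ‖a - γ‖ ≤ 2 * K * R / n) : ℝ) ≤ Multiset.card α := by
        exact_mod_cast Multiset.card_le_card (Multiset.filter_le _ _)
      have h2 := hα.1
      have h3 : (n : ℝ) ≤ 2 * K := by exact_mod_cast hlt.le
      have h4 : κ * n ≤ κ * (2 * K) := mul_le_mul_of_nonneg_left h3 hκ
      have h5 : 0 ≤ κ * K := by positivity
      have h6 : 0 < C * K := by positivity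
      nlinarith
    rw [h0]
    simp
    positivity
  · obtain ⟨h, hh⟩ : ∃ h, h = n / (2 * K) := ⟨_, rfl⟩
    have hh1 : 1 ≤ h := by
      rw [hh, Nat.one_le_div_iff (by omega)]
      exact hge
    have hhn : 2 * K * h ≤ n := by
      rw [hh]
      exact Nat.mul_div_le n (2 * K)
    have hhn2 : n ≤ 4 * K * h := by
      have h1 := Nat.lt_mul_div_succ n (show 0 < 2 * K by omega)
      rw [← hh] at h1
      nlinarith
    have hh' : (0 : ℝ) < h := by exact_mod_cast hh1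
    obtain ⟨r, hr, hps⟩ := pow_sum F
    have hp := prob_sup (n := n) hr hC hfam g hK hh1 hhn (y := 7 * C * K * h ^ 2) (by positivity)
    have hsub : (univ.filter fun t : ι → Polynomial.degreeLT F n => MapsTo Z (fun i => g i + (t i).1) ∧ ∃ α : Multiset ℂ,
      IsSpectrum G w c (fun i => g i + (t i).1) (κ * n) α ∧ ∃ γ : ℂ, ‖γ‖ = R ∧
        100 * (κ + C) * K < Multiset.card (α.filter fun a => ‖a - γ‖ ≤ 2 * K * R / n)) ⊆
      (univ.filter fun t : ι → Polynomial.degreeLT F n => ∃ x : ℂ, ‖x‖ = 1 ∧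
        7 * C * K * h ^ 2 ≤ ‖QP r G Z w c (fun i => g i + (t i).1) h x‖) := by
      intro t ht
      rw [mem_filter] at ht ⊢
      refine ⟨mem_univ _, ?_⟩
      obtain ⟨-, hmap, α, hα, γ, hγ, hlt⟩ := ht
      refine ⟨(R : ℝ) / γ, ?_, ?_⟩
      · rw [norm_div, hγ, Complex.norm_real, Real.norm_of_nonneg hR.le, div_self hR.ne']
      · by_contra hcon
        rw [not_le] at hcon
        obtain ⟨ε, hε, h1⟩ := hps s ι G Z w c C hC.le hfam _ hmap _ α hα
        have h2 := clus_le hr hC.le hfam hα hε h1 hh1 (by rw [hγ, hRR])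
        rw [← hRR] at h2
        have h3 : (Multiset.card (α.filter fun a => ‖a - γ‖ ≤ 2 * K * R / n) : ℝ) ≤ Multiset.card (α.filter fun a => ‖a - γ‖ ≤ R / h) := by
          have h4 : 2 * K * R / n ≤ R / h := by
            rw [div_le_div_iff₀ (by linarith) hh']
            have h5 : 2 * (K : ℝ) * h ≤ n := by exact_mod_cast hhn
            nlinarith
          exact_mod_cast Multiset.card_le_card (Multiset.monotone_filter_right _ fun a (ha : ‖a - γ‖ ≤ 2 * K * R / n) => le_trans ha h4)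
        have h4 : 24 * (κ * n) / h ≤ 96 * κ * K := by
          rw [div_le_iff₀ hh']
          have h5 : (n : ℝ) ≤ 4 * K * h := by exact_mod_cast hhn2
          have h6 := mul_le_mul_of_nonneg_left h5 hκ
          nlinarith
        have h5 : 8 * ‖QP r G Z w c (fun i => g i + (t i).1) h ((R : ℝ) / γ)‖ / h ^ 2 ≤ 56 * C * K := by
          rw [div_le_iff₀ (by positivity)]
          nlinarith
        have h6 : 0 ≤ κ * K := by positivity
        have h7 : C ≤ C * K := le_mul_of_one_le_right hC.le hK'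
        nlinarith
    refine (Nat.cast_le.2 (card_le_card hsub)).trans (hp.trans ?_)
    refine mul_le_mul_of_nonneg_right ?_ (Nat.cast_nonneg _)
    have h1 : 44 * C ^ 2 * K * (h : ℝ) ^ 4 / (7 * C * K * h ^ 2) ^ 2 ≤ 1 / K := by
      rw [div_le_div_iff₀ (by positivity) (by positivity)]
      have : 0 ≤ C ^ 2 * K ^ 2 * (h : ℝ) ^ 4 := by positivity
      nlinarith
    have h2 : (44 * C ^ 2 * K * (h : ℝ) ^ 4 / (7 * C * K * h ^ 2) ^ 2) ^ K ≤ 1 / (K : ℝ) ^ K := by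
      rw [← one_div_pow]
      exact pow_le_pow_left₀ (by positivity) h1 K
    have h3 : 2 * ((K * h : ℕ) : ℝ) ≤ n := by
      have : 2 * (K * h) ≤ n := by
        rw [← mul_assoc]
        exact hhn
      exact_mod_cast this
    calc 2 * ((K * h : ℕ) : ℝ) * (44 * C ^ 2 * K * (h : ℝ) ^ 4 / (7 * C * K * h ^ 2) ^ 2) ^ K ≤ n * (1 / (K : ℝ) ^ K) :=
          mul_le_mul h3 h2 (by positivity) (by positivity)
      _ = n / (K : ℝ) ^ K := by ring

end Q282PB
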