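import Pool.Agent.Q282.PB.Mom2
import Pool.Agent.Q282.PB.Prob

/-!
# Pullbacks of a family of varieties by tuples of polynomials: pairs of equal eigenvalues
-/

set_option autoImplicit false
set_option linter.unusedSectionVars false

namespace Q282PB

open Finset MvPolynomial
open Q282.FF (Place deg Res red PL PB mem_PL mem_PB rt)
open Q282.CL
open Q282QF (fj fj_eq fj_nonneg fj_one sum_fj count_le)

/-- the number of the pairs of equal elements -/
noncomputable def prs (α : Multiset ℂ) : ℝ := (α.map fun a => (α.count a : ℝ)).sum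

lemma one_det (α : Multiset ℂ) {R : ℝ} (hR : 0 < R) (hα : ∀ a ∈ α, ‖a‖ = R) {γ : ℂ} (hγ : ‖γ‖ = R) {h : ℕ} (hh : 1 ≤ h) :
    (h : ℝ) ^ 2 * (α.count γ : ℝ) ≤ h * (Multiset.card α : ℝ) +
      2 * ∑ m ∈ Ico 1 h, ((h : ℝ) - m) * ((α.map fun a => a ^ m).sum * (γ ^ m)⁻¹).re := by
  have hγ0 : γ ≠ 0 := by
    rintro rfl
    rw [norm_zero] at hγ
    linarith
  have hn : ∀ a ∈ α, ‖a / γ‖ = 1 := fun a ha => by rw [norm_div, hα a ha, hγ, div_self hR.ne']
  have h1 := count_le α (fun a => fj (h - 1) (a / γ)) (fun a ha => fj_nonneg _ _ (hn a ha)) γ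
  rw [sum_fj, div_self hγ0, fj_one] at h1
  have e1 : h - 1 + 1 = h := by omega
  rw [e1] at h1
  rw [mul_comm]
  refine h1.trans (le_of_eq ?_)
  rw [sum_Ico_eq_sum_range]
  congr 2
  refine sum_congr rfl fun m _ => ?_
  rw [Nat.cast_sub hh, div_eq_mul_inv]
  have e2 : 1 + m = m + 1 := by omega
  rw [e2]
  push_cast
  ring

lemma pair_aux (α β : Multiset ℂ) {R : ℝ} (hR : 0 < R) (hα : ∀ a ∈ α, ‖a‖ = R) (hβ : ∀ a ∈ β, ‖a‖ = R) {h : ℕ} (hh : 1 ≤ h) :
    (h : ℝ) ^ 2 * (β.map fun a => (α.count a : ℝ)).sum ≤ h * (Multiset.card α : ℝ) * Multiset.card β +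
      2 * ∑ m ∈ Ico 1 h, ((h : ℝ) - m) * ((α.map fun a => a ^ m).sum * (β.map fun a => (a ^ m)⁻¹).sum).re := by
  induction β using Multiset.induction_on with
  | empty => simp
  | cons γ t ih =>
    have h1 := ih fun a ha => hβ a (Multiset.mem_cons_of_mem ha)
    have h2 := one_det α hR hα (hβ γ (Multiset.mem_cons_self γ t)) hh
    simp only [Multiset.map_cons, Multiset.sum_cons, Multiset.card_cons, mul_add, Complex.add_re, sum_add_distrib]
    push_cast
    linarith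

lemma inv_sum (α : Multiset ℂ) {R : ℝ} (hα : ∀ a ∈ α, ‖a‖ = R) (m : ℕ) :
    (α.map fun a => (a ^ m)⁻¹).sum = (starRingEnd ℂ) (α.map fun a => a ^ m).sum / ((R ^ (2 * m) : ℝ) : ℂ) := by
  induction α using Multiset.induction_on with
  | empty => simp
  | cons a t ih =>
    have h1 := ih fun a' ha => hα a' (Multiset.mem_cons_of_mem ha)
    have h2 := hα a (Multiset.mem_cons_self a t)
    rw [Multiset.map_cons, Multiset.sum_cons, Multiset.map_cons, Multiset.sum_cons, h1, map_add, add_div]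
    congr 1
    have h3 : ‖a ^ m‖ = R ^ m := by rw [norm_pow, h2]
    rw [Complex.inv_def, Complex.normSq_eq_norm_sq, h3, div_eq_mul_inv]
    congr 1
    rw [← pow_mul, mul_comm m 2]
    push_cast
    rfl

/-- the kernel of Fejér -/
theorem pair_det (α : Multiset ℂ) {R : ℝ} (hR : 0 < R) (hα : ∀ a ∈ α, ‖a‖ = R) {h : ℕ} (hh : 1 ≤ h) :
    (h : ℝ) ^ 2 * prs α ≤ h * (Multiset.card α : ℝ) ^ 2 + 2 * ∑ m ∈ Ico 1 h, ((h : ℝ) - m) * ‖(α.map fun a => a ^ m).sum / ((R ^ m : ℝ) : ℂ)‖ ^ 2 := by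
  have h1 := pair_aux α α hR hα hα hh
  unfold prs
  refine h1.trans (le_of_eq ?_)
  congr 1
  · ring
  · congr 1
    refine sum_congr rfl fun m _ => ?_
    congr 1
    rw [inv_sum α hα m, norm_div, Complex.norm_real, Real.norm_of_nonneg (by positivity), div_pow, ← pow_mul, mul_comm m 2,
      ← Complex.normSq_eq_norm_sq, ← mul_div_assoc, Complex.mul_conj, ← Complex.ofReal_div, Complex.ofReal_re]

section

variable {F : Type} [Field F] [Fintype F] [DecidableEq F] {s : ℕ} {ι : Type} [Fintype ι] [DecidableEq ι]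

lemma geo_one {q : ℝ} (hq : 2 ≤ q) (h : ℕ) : ∑ m ∈ Ico 1 h, 1 / q ^ m ≤ 1 := by
  have h1 : ∀ n : ℕ, ∑ m ∈ Ico 1 (n + 1), 1 / q ^ m ≤ 1 - 1 / q ^ n := by
    intro n
    induction n with
    | zero => simp
    | succ n ih =>
      rw [sum_Ico_succ_top (by omega)]
      have hqn : 0 < q ^ n := by positivity
      have e : 1 / q ^ n = q * (1 / q ^ (n + 1)) := by
        rw [pow_succ]
        field_simp
      rw [e] at ih
      have h2 : 0 < 1 / q ^ (n + 1) := by positivity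
      nlinarith
  rcases h with _ | n
  · simp
  · refine (h1 n).trans ?_
    have : 0 < 1 / q ^ n := by positivity
    linarith

/-- **The inequality for one member of the family.** -/
theorem prs_le {r : Place F → ℕ} (hr : ∀ v, r v ≤ deg v) {G : Set (MvPolynomial (Fin s ⊕ ι) F)} {Z : Set (MvPolynomial ι F)}
    {w : ℕ} {c : ℕ → ℝ} {C : ℝ} (hC : 0 ≤ C) (hfam : IsFamily G Z w c C) {f : ι → Polynomial F} {B : ℝ} {α : Multiset ℂ}
    (hα : IsSpectrum G w c f B α) {ε : ℝ} (hε : ε = 1 ∨ ε = -1)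
    (hps : ∀ m : ℕ, 1 ≤ m → ‖(α.map fun a => a ^ m).sum / (Real.sqrt (Fintype.card F) ^ ((w + 1) * m) : ℝ) -
          ((ε * SS r G Z w c f m : ℝ) : ℂ)‖ ≤ 2 * C + B / Real.sqrt (Fintype.card F) ^ m)
    {h : ℕ} (hh : 1 ≤ h) :
    prs α ≤ 7 * B ^ 2 / h + 27 * C ^ 2 + 6 / h * ∑ m ∈ Ico 1 h, (SS r G Z w c f m - mu r G Z w c m) ^ 2 := by
  obtain ⟨q, hq⟩ : ∃ q : ℝ, q = Real.sqrt (Fintype.card F) := ⟨_, rfl⟩
  have hq75 : 7 / 5 ≤ q := by
    rw [hq]
    exact sqrt_ge'
  have hq0 : 0 < q := by linarith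
  have hF2 : (2 : ℝ) ≤ Fintype.card F := by exact_mod_cast Fintype.one_lt_card (α := F)
  have hq2 : q ^ 2 = Fintype.card F := by rw [hq, Real.sq_sqrt (by linarith)]
  obtain ⟨hcard, hnorm, β, β', ε', hε', hB, -, -⟩ := hα
  have hB0 : 0 ≤ B := le_trans (by positivity) hB
  have hh' : (0 : ℝ) < h := by exact_mod_cast hh
  rw [← hq] at hps hnorm
  have hR : 0 < q ^ (w + 1) := by positivity
  have h1 := pair_det α hR hnorm hh
  have hε1 : |ε| = 1 := by
    rcases hε with h | h <;> rw [h] <;> norm_num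
  have hterm : ∀ m ∈ Ico 1 h, ((h : ℝ) - m) * ‖(α.map fun a => a ^ m).sum / (((q ^ (w + 1)) ^ m : ℝ) : ℂ)‖ ^ 2 ≤
      h * (3 * (SS r G Z w c f m - mu r G Z w c m) ^ 2) + ((h : ℝ) - m) * (27 * C ^ 2) + h * (3 * B ^ 2 * (1 / (Fintype.card F : ℝ) ^ m)) := by
    intro m hm
    rw [mem_Ico] at hm
    have hm1 : (0 : ℝ) ≤ (h : ℝ) - m := by
      have : (m : ℝ) ≤ h := by exact_mod_cast hm.2.le
      linarith
    have hm2 : (h : ℝ) - m ≤ h := by
      have : (0 : ℝ) ≤ m := Nat.cast_nonneg _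
      linarith
    have h2 := hps m hm.1
    rw [← pow_mul]
    have hmu := mu_le hr hC hfam m
    obtain ⟨D, hD⟩ : ∃ D : ℝ, D = SS r G Z w c f m - mu r G Z w c m := ⟨_, rfl⟩
    rw [← hD]
    obtain ⟨P, hP⟩ : ∃ P : ℂ, P = (α.map fun a => a ^ m).sum / ((q ^ ((w + 1) * m) : ℝ) : ℂ) := ⟨_, rfl⟩
    rw [← hP] at h2 ⊢
    have h3 : ‖P‖ ≤ |D| + 3 * C + B / q ^ m := by
      have h4 : ‖P‖ ≤ ‖P - ((ε * SS r G Z w c f m : ℝ) : ℂ)‖ + ‖((ε * SS r G Z w c f m : ℝ) : ℂ)‖ := by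
        have := norm_add_le (P - ((ε * SS r G Z w c f m : ℝ) : ℂ)) ((ε * SS r G Z w c f m : ℝ) : ℂ)
        rwa [sub_add_cancel] at this
      rw [Complex.norm_real, Real.norm_eq_abs, abs_mul, hε1, one_mul] at h4
      have h5 : |SS r G Z w c f m| ≤ |D| + C := by
        have h6 : SS r G Z w c f m = D + mu r G Z w c m := by rw [hD]; ring
        rw [h6]
        refine (abs_add_le _ _).trans ?_
        linarith
      linarith
    have h4 : ‖P‖ ^ 2 ≤ (|D| + 3 * C + B / q ^ m) ^ 2 := pow_le_pow_left₀ (norm_nonneg _) h3 2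
    have h5 : (|D| + 3 * C + B / q ^ m) ^ 2 ≤ 3 * D ^ 2 + 27 * C ^ 2 + 3 * (B / q ^ m) ^ 2 := by
      have e : D ^ 2 = |D| ^ 2 := (sq_abs D).symm
      rw [e]
      nlinarith [sq_nonneg (|D| - 3 * C), sq_nonneg (|D| - B / q ^ m), sq_nonneg (3 * C - B / q ^ m)]
    have h6 : (B / q ^ m) ^ 2 = B ^ 2 * (1 / (Fintype.card F : ℝ) ^ m) := by
      rw [div_pow, ← pow_mul, mul_comm m 2, pow_mul, hq2]
      ring
    rw [h6] at h5
    have h7 : 0 ≤ B ^ 2 * (1 / (Fintype.card F : ℝ) ^ m) := by positivity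
    have h8 : ((h : ℝ) - m) * ‖P‖ ^ 2 ≤ ((h : ℝ) - m) * (3 * D ^ 2 + 27 * C ^ 2 + 3 * (B ^ 2 * (1 / (Fintype.card F : ℝ) ^ m))) :=
      mul_le_mul_of_nonneg_left (h4.trans h5) hm1
    have h9 : ((h : ℝ) - m) * (3 * D ^ 2) ≤ h * (3 * D ^ 2) := mul_le_mul_of_nonneg_right hm2 (by positivity)
    have h10 : ((h : ℝ) - m) * (3 * (B ^ 2 * (1 / (Fintype.card F : ℝ) ^ m))) ≤ h * (3 * (B ^ 2 * (1 / (Fintype.card F : ℝ) ^ m))) :=
      mul_le_mul_of_nonneg_right hm2 (by positivity)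
    nlinarith
  have h2 := sum_le_sum hterm
  rw [sum_add_distrib, sum_add_distrib, ← mul_sum, ← mul_sum, ← sum_mul, ← mul_sum, ← mul_sum] at h2
  have h4 : ∑ m ∈ Ico 1 h, ((h : ℝ) - m) ≤ h ^ 2 / 2 := by
    have h5 : ∑ m ∈ Ico 1 h, ((h : ℝ) - m) ≤ ∑ m ∈ range h, (m : ℝ) := by
      have h6 : ∑ m ∈ Ico 1 h, ((h : ℝ) - m) = ∑ m ∈ Ico 1 h, (((h - m : ℕ)) : ℝ) := by
        refine sum_congr rfl fun m hm => ?_
        rw [mem_Ico] at hm
        rw [Nat.cast_sub hm.2.le]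
      rw [h6]
      have h7 : ∑ m ∈ Ico 1 h, (((h - m : ℕ)) : ℝ) = ∑ m ∈ Ico 1 h, (m : ℝ) := by
        refine sum_nbij' (fun m => h - m) (fun m => h - m) ?_ ?_ ?_ ?_ ?_
        · intro m hm
          rw [mem_Ico] at hm ⊢
          omega
        · intro m hm
          rw [mem_Ico] at hm ⊢
          omega
        · intro m hm
          rw [mem_Ico] at hm
          show h - (h - m) = m
          omega
        · intro m hm
          rw [mem_Ico] at hm
          show h - (h - m) = m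
          omega
        · intro m _
          rfl
      rw [h7]
      refine sum_le_sum_of_subset_of_nonneg ?_ fun _ _ _ => Nat.cast_nonneg _
      intro m hm
      rw [mem_Ico] at hm
      rw [mem_range]
      exact hm.2
    exact h5.trans (sum_id h)
  have h5 := geo_one hF2 h
  have h6 : (∑ m ∈ Ico 1 h, ((h : ℝ) - m)) * (27 * C ^ 2) ≤ h ^ 2 / 2 * (27 * C ^ 2) := mul_le_mul_of_nonneg_right h4 (by positivity)
  have h7 : (h : ℝ) * (3 * B ^ 2 * ∑ m ∈ Ico 1 h, 1 / (Fintype.card F : ℝ) ^ m) ≤ h * (3 * B ^ 2 * 1) :=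
    mul_le_mul_of_nonneg_left (mul_le_mul_of_nonneg_left h5 (by positivity)) hh'.le
  obtain ⟨SQ, hS⟩ : ∃ SQ : ℝ, SQ = ∑ m ∈ Ico 1 h, (SS r G Z w c f m - mu r G Z w c m) ^ 2 := ⟨_, rfl⟩
  rw [← hS] at h2 ⊢
  have hcard2 : (h : ℝ) * (Multiset.card α : ℝ) ^ 2 ≤ h * B ^ 2 :=
    mul_le_mul_of_nonneg_left (pow_le_pow_left₀ (Nat.cast_nonneg _) hcard 2) hh'.le
  have h8 : (h : ℝ) ^ 2 * prs α ≤ h * B ^ 2 + 2 * (h * (3 * SQ) + h ^ 2 / 2 * (27 * C ^ 2) + h * (3 * B ^ 2 * 1)) := by linarith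
  have h9 : prs α ≤ 1 / h ^ 2 * (h * B ^ 2 + 2 * (h * (3 * SQ) + h ^ 2 / 2 * (27 * C ^ 2) + h * (3 * B ^ 2 * 1))) := by
    rw [div_mul_eq_mul_div, le_div_iff₀ (by positivity)]
    linarith
  refine h9.trans (le_of_eq ?_)
  field_simp
  ring

end

section

variable {F : Type} [Field F] [Fintype F] [DecidableEq F] {s : ℕ} {ι : Type} [Fintype ι] [DecidableEq ι]

variable {r : Place F → ℕ} (hr : ∀ v, r v ≤ deg v) {G : Set (MvPolynomial (Fin s ⊕ ι) F)} {Z : Set (MvPolynomial ι F)}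
  {w : ℕ} {c : ℕ → ℝ} {C : ℝ} (hC : 0 < C) (hfam : IsFamily G Z w c C)

include hr hC hfam in
/-- the moments of the sum of the squares -/
lemma mom_sq (g : ι → Polynomial F) {n h K : ℕ} (hK : 1 ≤ K) (hh : 1 ≤ h) (hn : 2 * K * h ≤ n) :
    av (fun t : ι → Polynomial.degreeLT F n => (∑ m ∈ Ico 1 h, (SS r G Z w c (fun i => g i + (t i).1) m - mu r G Z w c m) ^ 2) ^ K) ≤
      2 * (44 * C ^ 2 * K * h ^ 2) ^ K := by
  have hh' : (0 : ℝ) < h := by exact_mod_cast hh
  have hK' : (0 : ℝ) < K := by exact_mod_cast hK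
  have hone : ∀ m ∈ Ico 1 h, av (fun t : ι → Polynomial.degreeLT F n => (SS r G Z w c (fun i => g i + (t i).1) m - mu r G Z w c m) ^ (2 * K)) ≤
      2 * (44 * C ^ 2 * K * h) ^ K := by
    intro m hm
    have h1 := mom2 hr hC.le hfam g hK hh hn (fun m' => if m' = m then 1 else 0) (V := 4 * C ^ 2 * h) (by positivity) (by
      have h2 : ∀ m' ∈ Ico 1 h, 4 * C ^ 2 * ((if m' = m then (1 : ℝ) else 0) ^ 2 * m') = if m' = m then 4 * C ^ 2 * m' else 0 := by
        intro m' _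
        split_ifs <;> ring
      rw [sum_congr rfl h2, sum_ite_eq', if_pos hm]
      rw [mem_Ico] at hm
      have : (m : ℝ) ≤ h := by exact_mod_cast hm.2.le
      exact mul_le_mul_of_nonneg_left this (by positivity))
    have h3 : (fun t : ι → Polynomial.degreeLT F n => (∑ m' ∈ Ico 1 h, (if m' = m then (1 : ℝ) else 0) *
        (SS r G Z w c (fun i => g i + (t i).1) m' - mu r G Z w c m')) ^ (2 * K)) =
        fun t => (SS r G Z w c (fun i => g i + (t i).1) m - mu r G Z w c m) ^ (2 * K) := by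
      funext t
      simp only [ite_mul, one_mul, zero_mul]
      rw [sum_ite_eq', if_pos hm]
    rw [h3] at h1
    refine h1.trans ?_
    have h4 : ((2 * K).factorial : ℝ) ≤ (4 * (K : ℝ) ^ 2) ^ K := by
      have h2 : ((2 * K).factorial : ℝ) ≤ ((2 * K : ℕ) : ℝ) ^ (2 * K) := by exact_mod_cast Nat.factorial_le_pow (2 * K)
      refine h2.trans (le_of_eq ?_)
      rw [pow_mul]
      push_cast
      ring
    calc 2 * ((2 * K).factorial : ℝ) * (Real.exp 1 * (4 * C ^ 2 * h) / K) ^ K ≤ 2 * (4 * (K : ℝ) ^ 2) ^ K * (Real.exp 1 * (4 * C ^ 2 * h) / K) ^ K := by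
          refine mul_le_mul_of_nonneg_right (mul_le_mul_of_nonneg_left h4 (by norm_num)) (by positivity)
      _ = 2 * (16 * Real.exp 1 * C ^ 2 * K * h) ^ K := by
          rw [mul_assoc, ← mul_pow]
          congr 2
          field_simp
          ring
      _ ≤ 2 * (44 * C ^ 2 * K * h) ^ K := by
          refine mul_le_mul_of_nonneg_left (pow_le_pow_left₀ (by positivity) ?_ K) (by norm_num)
          have he : Real.exp 1 ≤ 11 / 4 := by
            have := Real.exp_one_lt_d9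
            linarith
          have h5 : 0 ≤ C ^ 2 * K * h := by positivity
          nlinarith
  obtain ⟨K', rfl⟩ : ∃ K', K = K' + 1 := ⟨K - 1, by omega⟩
  have hpt : ∀ t : ι → Polynomial.degreeLT F n, (∑ m ∈ Ico 1 h, (SS r G Z w c (fun i => g i + (t i).1) m - mu r G Z w c m) ^ 2) ^ (K' + 1) ≤
      (h : ℝ) ^ K' * ∑ m ∈ Ico 1 h, (SS r G Z w c (fun i => g i + (t i).1) m - mu r G Z w c m) ^ (2 * (K' + 1)) := by
    intro t
    rcases Nat.lt_or_ge 1 h with h1 | h1
    · have hcard : (0 : ℝ) < ((Ico 1 h).card : ℝ) := by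
        rw [Nat.card_Ico]
        have : 0 < h - 1 := by omega
        exact_mod_cast this
      have h2 := pow_sum_div_card_le_sum_pow (s := Ico 1 h) (f := fun m => (SS r G Z w c (fun i => g i + (t i).1) m - mu r G Z w c m) ^ 2)
        (fun _ _ => sq_nonneg _) K'
      rw [div_le_iff₀ (by positivity)] at h2
      refine h2.trans ?_
      rw [mul_comm]
      have h3 : ((Ico 1 h).card : ℝ) ^ K' ≤ (h : ℝ) ^ K' := by
        refine pow_le_pow_left₀ hcard.le ?_ K'
        rw [Nat.card_Ico]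
        exact_mod_cast Nat.sub_le h 1
      have h4 : ∑ m ∈ Ico 1 h, ((SS r G Z w c (fun i => g i + (t i).1) m - mu r G Z w c m) ^ 2) ^ (K' + 1) =
          ∑ m ∈ Ico 1 h, (SS r G Z w c (fun i => g i + (t i).1) m - mu r G Z w c m) ^ (2 * (K' + 1)) :=
        sum_congr rfl fun m _ => by rw [← pow_mul]
      rw [h4]
      refine mul_le_mul_of_nonneg_right h3 (sum_nonneg fun m _ => ?_)
      rw [pow_mul]
      positivity
    · have : h = 1 := by omega
      subst this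
      simp
  refine (av_mono hpt).trans ?_
  rw [av_mul, av_sum]
  have h5 : ∑ m ∈ Ico 1 h, av (fun t : ι → Polynomial.degreeLT F n =>
      (SS r G Z w c (fun i => g i + (t i).1) m - mu r G Z w c m) ^ (2 * (K' + 1))) ≤ h * (2 * (44 * C ^ 2 * (K' + 1 : ℕ) * h) ^ (K' + 1)) := by
    refine (sum_le_sum hone).trans ?_
    rw [sum_const, nsmul_eq_mul, Nat.card_Ico]
    refine mul_le_mul_of_nonneg_right ?_ (by positivity)
    exact_mod_cast Nat.sub_le h 1
  refine (mul_le_mul_of_nonneg_left h5 (by positivity)).trans (le_of_eq ?_)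
  have e : 44 * C ^ 2 * ((K' + 1 : ℕ) : ℝ) * (h : ℝ) ^ 2 = h * (44 * C ^ 2 * (K' + 1 : ℕ) * h) := by ring
  rw [e, mul_pow (h : ℝ), pow_succ]
  ring

end

open Classical in
/-- **Pairs of equal eigenvalues.** -/
theorem pairs {F : Type} [Field F] [Fintype F] {s : ℕ} {ι : Type} [Fintype ι] (G : Set (MvPolynomial (Fin s ⊕ ι) F))
    (Z : Set (MvPolynomial ι F)) (w : ℕ) (c : ℕ → ℝ) (C κ : ℝ) (hC : 0 < C) (hκ : 0 ≤ κ) (hfam : IsFamily G Z w c C)
    (g : ι → Polynomial F) (n K : ℕ) (hn : 1 ≤ n) (hK : 1 ≤ K) :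
    ((univ.filter fun t : ι → Polynomial.degreeLT F n => MapsTo Z (fun i => g i + (t i).1) ∧ ∃ α : Multiset ℂ,
      IsSpectrum G w c (fun i => g i + (t i).1) (κ * n) α ∧ 750 * (κ ^ 2 + C ^ 2) * K * n < prs α).card : ℝ) ≤
      Real.exp (-K) * Fintype.card (ι → Polynomial.degreeLT F n) := by
  have hK' : (1 : ℝ) ≤ K := by exact_mod_cast hK
  have hn' : (1 : ℝ) ≤ n := by exact_mod_cast hn
  have hcpos : (0 : ℝ) < Fintype.card (ι → Polynomial.degreeLT F n) := by exact_mod_cast Fintype.card_pos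
  rcases lt_or_ge n (2 * K) with hlt | hge
  · have h0 : (univ.filter fun t : ι → Polynomial.degreeLT F n => MapsTo Z (fun i => g i + (t i).1) ∧ ∃ α : Multiset ℂ,
      IsSpectrum G w c (fun i => g i + (t i).1) (κ * n) α ∧ 750 * (κ ^ 2 + C ^ 2) * K * n < prs α) = ∅ := by
      rw [filter_eq_empty_iff]
      rintro t - ⟨-, α, hα, hlt2⟩
      have h1 : ∀ β : Multiset ℂ, (β.map fun a => (α.count a : ℝ)).sum ≤ Multiset.card β * (Multiset.card α : ℝ) := by
        intro β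
        induction β using Multiset.induction_on with
        | empty => simp
        | cons a t ih =>
          rw [Multiset.map_cons, Multiset.sum_cons, Multiset.card_cons]
          have : (α.count a : ℝ) ≤ Multiset.card α := by exact_mod_cast Multiset.count_le_card a α
          push_cast
          linarith
      have h2 : prs α ≤ (κ * n) ^ 2 := by
        refine (h1 α).trans ?_
        rw [← sq]
        exact pow_le_pow_left₀ (Nat.cast_nonneg _) hα.1 2
      have h3 : (n : ℝ) ≤ 2 * K := by exact_mod_cast hlt.le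
      have h4 : (κ * n) ^ 2 ≤ κ ^ 2 * (2 * K) * n := by
        have : (κ * n) ^ 2 = κ ^ 2 * n * n := by ring
        rw [this]
        exact mul_le_mul_of_nonneg_right (mul_le_mul_of_nonneg_left h3 (sq_nonneg _)) (by linarith)
      have h5 : 0 ≤ κ ^ 2 * K * n := by positivity
      have h6 : 0 < C ^ 2 * K * n := by positivity
      nlinarith
    rw [h0]
    simp
    positivity
  · obtain ⟨h, hh⟩ : ∃ h, h = n / (2 * K) := ⟨_, rfl⟩
    have hh1 : 1 ≤ h := by
      rw [hh, Nat.one_le_div_iff (by omega)]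
      exact hge
    have hhn : 2 * K * h ≤ n := by
      rw [hh]
      exact Nat.mul_div_le n (2 * K)
    have hhn2 : n ≤ 4 * K * h := by
      have h1 := Nat.lt_mul_div_succ n (show 0 < 2 * K by omega)
      rw [← hh] at h1
      nlinarith
    have hh' : (0 : ℝ) < h := by exact_mod_cast hh1
    obtain ⟨r, hr, hps⟩ := pow_sum F
    have hmom := mom_sq hr hC hfam g hK hh1 hhn
    obtain ⟨S, hS⟩ : ∃ S : Finset (ι → Polynomial.degreeLT F n), S = univ.filter fun t : ι → Polynomial.degreeLT F n =>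
      MapsTo Z (fun i => g i + (t i).1) ∧ ∃ α : Multiset ℂ,
      IsSpectrum G w c (fun i => g i + (t i).1) (κ * n) α ∧ 750 * (κ ^ 2 + C ^ 2) * K * n < prs α := ⟨_, rfl⟩
    rw [← hS]
    have hlarge : ∀ t ∈ S, (240 * C ^ 2 * K * h ^ 2) ^ K ≤
        (∑ m ∈ Ico 1 h, (SS r G Z w c (fun i => g i + (t i).1) m - mu r G Z w c m) ^ 2) ^ K := by
      intro t ht
      rw [hS, mem_filter] at ht
      obtain ⟨-, hmap, α, hα, hlt⟩ := ht
      refine pow_le_pow_left₀ (by positivity) ?_ K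
      by_contra hcon
      rw [not_le] at hcon
      obtain ⟨ε, hε, h1⟩ := hps s ι G Z w c C hC.le hfam _ hmap _ α hα
      have h2 := prs_le hr hC.le hfam hα hε h1 hh1
      have h3 : 7 * (κ * n) ^ 2 / h ≤ 28 * κ ^ 2 * K * n := by
        rw [div_le_iff₀ hh']
        have h5 : (n : ℝ) ≤ 4 * K * h := by exact_mod_cast hhn2
        have h6 : 7 * κ ^ 2 * n * n ≤ 7 * κ ^ 2 * n * (4 * K * h) := mul_le_mul_of_nonneg_left h5 (by positivity)
        nlinarith
      have h4 : 6 / h * ∑ m ∈ Ico 1 h, (SS r G Z w c (fun i => g i + (t i).1) m - mu r G Z w c m) ^ 2 ≤ 720 * C ^ 2 * n := by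
        have h5 : 2 * (K : ℝ) * h ≤ n := by exact_mod_cast hhn
        have h6 : 6 / h * ∑ m ∈ Ico 1 h, (SS r G Z w c (fun i => g i + (t i).1) m - mu r G Z w c m) ^ 2 ≤ 6 / h * (240 * C ^ 2 * K * h ^ 2) :=
          mul_le_mul_of_nonneg_left hcon.le (by positivity)
        refine h6.trans ?_
        have e : 6 / (h : ℝ) * (240 * C ^ 2 * K * h ^ 2) = 720 * C ^ 2 * (2 * K * h) := by
          field_simp
          ring
        rw [e]
        exact mul_le_mul_of_nonneg_left h5 (by positivity)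
      have h5 : C ^ 2 * n ≤ C ^ 2 * K * n := by
        have : C ^ 2 * n * 1 ≤ C ^ 2 * n * K := mul_le_mul_of_nonneg_left hK' (by positivity)
        nlinarith
      have h6 : C ^ 2 ≤ C ^ 2 * n := le_mul_of_one_le_right (by positivity) hn'
      have h7 : 0 ≤ κ ^ 2 * K * n := by positivity
      nlinarith
    have h1 : (S.card : ℝ) * (240 * C ^ 2 * K * h ^ 2) ^ K ≤ ∑ t : ι → Polynomial.degreeLT F n,
        (∑ m ∈ Ico 1 h, (SS r G Z w c (fun i => g i + (t i).1) m - mu r G Z w c m) ^ 2) ^ K := by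
      calc (S.card : ℝ) * (240 * C ^ 2 * K * h ^ 2) ^ K = ∑ t ∈ S, (240 * C ^ 2 * K * h ^ 2) ^ K := by rw [sum_const, nsmul_eq_mul]
        _ ≤ ∑ t ∈ S, (∑ m ∈ Ico 1 h, (SS r G Z w c (fun i => g i + (t i).1) m - mu r G Z w c m) ^ 2) ^ K := sum_le_sum hlarge
        _ ≤ _ := sum_le_sum_of_subset_of_nonneg (subset_univ _) fun t _ _ => pow_nonneg (sum_nonneg fun _ _ => sq_nonneg _) _
    unfold av at hmom
    rw [div_le_iff₀ hcpos] at hmom
    have h2 := h1.trans hmom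
    have hX : 0 < C ^ 2 * K * (h : ℝ) ^ 2 := by positivity
    have h3 : (S.card : ℝ) * 240 ^ K ≤ 2 * 44 ^ K * Fintype.card (ι → Polynomial.degreeLT F n) := by
      have e1 : (240 * C ^ 2 * K * (h : ℝ) ^ 2) ^ K = 240 ^ K * (C ^ 2 * K * (h : ℝ) ^ 2) ^ K := by
        rw [← mul_pow]
        congr 1
        ring
      have e2 : (44 * C ^ 2 * K * (h : ℝ) ^ 2) ^ K = 44 ^ K * (C ^ 2 * K * (h : ℝ) ^ 2) ^ K := by
        rw [← mul_pow]
        congr 1
        ring
      rw [e1, e2] at h2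
      have hXK : 0 < (C ^ 2 * K * (h : ℝ) ^ 2) ^ K := by positivity
      have h4 : (S.card : ℝ) * 240 ^ K * (C ^ 2 * K * (h : ℝ) ^ 2) ^ K ≤
          2 * 44 ^ K * Fintype.card (ι → Polynomial.degreeLT F n) * (C ^ 2 * K * (h : ℝ) ^ 2) ^ K := by linarith
      exact le_of_mul_le_mul_right h4 hXK
    have h4 : 2 * (44 : ℝ) ^ K ≤ Real.exp (-K) * 240 ^ K := by
      have h5 : (44 : ℝ) ^ K = (11 / 60) ^ K * 240 ^ K := by
        rw [← mul_pow]
        norm_num
      rw [h5, ← mul_assoc]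
      refine mul_le_mul_of_nonneg_right ?_ (by positivity)
      have he : Real.exp 1 < 30 / 11 := by
        have := Real.exp_one_lt_d9
        linarith
      have h6 : (11 / 60 : ℝ) ≤ 1 / 2 * Real.exp (-1) := by
        have h7 : Real.exp (-1) = 1 / Real.exp 1 := by rw [Real.exp_neg, one_div]
        rw [h7, div_mul_div_comm, div_le_div_iff₀ (by norm_num) (by positivity)]
        linarith
      have h7 : (11 / 60 : ℝ) ^ K ≤ (1 / 2 * Real.exp (-1)) ^ K := pow_le_pow_left₀ (by norm_num) h6 K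
      have h8 : (1 / 2 * Real.exp (-1)) ^ K = (1 / 2) ^ K * Real.exp (-K) := by
        rw [mul_pow, ← Real.exp_nat_mul]
        congr 2
        ring
      have h9 : (1 / 2 : ℝ) ^ K ≤ 1 / 2 := by
        calc (1 / 2 : ℝ) ^ K ≤ (1 / 2) ^ 1 := pow_le_pow_of_le_one (by norm_num) (by norm_num) hK
          _ = 1 / 2 := pow_one _
      have h10 : 0 < Real.exp (-(K : ℝ)) := Real.exp_pos _
      rw [h8] at h7
      nlinarith
    have h5 : (S.card : ℝ) * 240 ^ K ≤ Real.exp (-K) * Fintype.card (ι → Polynomial.degreeLT F n) * 240 ^ K := by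
      refine h3.trans ?_
      have := mul_le_mul_of_nonneg_right h4 hcpos.le
      linarith
    exact le_of_mul_le_mul_right h5 (by positivity)

end Q282PB
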