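import Pool.Agent.Q282.PB.Sum

/-!
# Pullbacks of a family of varieties by tuples of polynomials: the power sums of the eigenvalues
-/

set_option autoImplicit false
set_option linter.unusedSectionVars false

namespace Q282PB

open Finset MvPolynomial
open Q282.FF (Place deg Res red PL mem_PL)
open Q282QF (exists_ext card_ext card_roots_le)

section

variable {F : Type} [Field F] [Fintype F] [DecidableEq F] {s : ℕ} {ι : Type} [Fintype ι] [DecidableEq ι]

/-- the sum over the elements of an extension -/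
lemma sum_split (G : Set (MvPolynomial (Fin s ⊕ ι) F)) (Z : Set (MvPolynomial ι F)) (c : ℕ → ℝ) (f : ι → Polynomial F)
    (hf : MapsTo Z f) (E : Type) [Field E] [Fintype E] [Algebra F E] :
    (∑ t : E, ((fib G E (fun i => Polynomial.aeval t (f i)) : ℝ) - c (Module.finrank F E))) =
      ∑ v ∈ PL F (Module.finrank F E), (rn E v : ℝ) * y G Z c v (fun i => red v (f i)) +
      ∑ t ∈ univ.filter (fun t : E => deg (plc (F := F) t) < Module.finrank F E),
        ((fib G E (fun i => Polynomial.aeval t (f i)) : ℝ) - c (Module.finrank F E)) := by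
  classical
  have hfd : Module.Finite F E := Module.Finite.of_finite
  have hle : ∀ t : E, deg (plc (F := F) t) ≤ Module.finrank F E := fun t => minpoly.natDegree_le t
  rw [← sum_filter_add_sum_filter_not univ (fun t : E => ¬ deg (plc (F := F) t) < Module.finrank F E)]
  congr 1
  · have h1 : ∀ t ∈ univ.filter (fun t : E => ¬ deg (plc (F := F) t) < Module.finrank F E), plc (F := F) t ∈ PL F (Module.finrank F E) := by
      intro t ht
      rw [mem_filter] at ht
      rw [mem_PL]
      have := hle t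
      omega
    rw [← sum_fiberwise_of_maps_to h1]
    refine sum_congr rfl fun v hv => ?_
    rw [mem_PL] at hv
    have h2 : (univ.filter (fun t : E => ¬ deg (plc (F := F) t) < Module.finrank F E)).filter (fun t => plc (F := F) t = v) =
        univ.filter fun t : E => plc (F := F) t = v := by
      ext t
      simp only [mem_filter, mem_univ, true_and]
      constructor
      · exact fun h => h.2
      · intro h
        refine ⟨?_, h⟩
        rw [h, hv]
        omega
    rw [h2]
    have h3 : ∀ t ∈ univ.filter (fun t : E => plc (F := F) t = v),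
        ((fib G E (fun i => Polynomial.aeval t (f i)) : ℝ) - c (Module.finrank F E)) = y G Z c v (fun i => red v (f i)) := by
      intro t ht
      rw [mem_filter] at ht
      obtain ⟨φ, hφ⟩ := exists_equiv (F := F) t (by rw [ht.2]; exact hv)
      have h4 : (fun i => Polynomial.aeval t (f i)) = fun i => φ (red _ (f i)) := by
        funext i
        rw [hφ]
      have h5 := hf E t
      rw [h4] at h5
      rw [inU_map Z φ] at h5
      rw [h4, fib_map G φ]
      have h6 : ∀ v' : Place F, plc (F := F) t = v' → deg v' = Module.finrank F E → y G Z c v' (fun i => red v' (f i)) =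
          (fib G (Res (plc (F := F) t)) (fun i => red _ (f i)) : ℝ) - c (Module.finrank F E) := by
        intro v' h hd
        subst h
        unfold y
        rw [if_pos h5, hd]
      exact (h6 v ht.2 hv).symm
    rw [sum_congr rfl h3, sum_const, nsmul_eq_mul]
    unfold rn
    congr 3
  · refine sum_congr ?_ fun _ _ => rfl
    ext t
    simp only [mem_filter, mem_univ, true_and, not_not]

end

/-- **The power sums.** -/
theorem pow_sum (F : Type) [Field F] [Fintype F] [DecidableEq F] : ∃ r : Place F → ℕ, (∀ v, r v ≤ deg v) ∧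
    ∀ (s : ℕ) (ι : Type) [Fintype ι] [DecidableEq ι] (G : Set (MvPolynomial (Fin s ⊕ ι) F)) (Z : Set (MvPolynomial ι F)) (w : ℕ)
      (c : ℕ → ℝ) (C : ℝ), 0 ≤ C → IsFamily G Z w c C → ∀ f : ι → Polynomial F, MapsTo Z f → ∀ (B : ℝ) (α : Multiset ℂ),
      IsSpectrum G w c f B α → ∃ ε : ℝ, (ε = 1 ∨ ε = -1) ∧ ∀ m : ℕ, 1 ≤ m →
        ‖(α.map fun a => a ^ m).sum / (Real.sqrt (Fintype.card F) ^ ((w + 1) * m) : ℝ) -
          ((ε * ((∑ v ∈ PL F m, (r v : ℝ) * y G Z c v (fun i => red v (f i))) / Real.sqrt (Fintype.card F) ^ ((w + 1) * m)) : ℝ) : ℂ)‖ ≤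
          2 * C + B / Real.sqrt (Fintype.card F) ^ m := by
  classical
  have hex := fun m : ℕ => exists_ext (F := F) (m + 1) (by omega)
  choose Em i1 i2 i3 hEm using hex
  refine ⟨fun v => rn (Em (deg v - 1)) v, fun v => rn_le _ v, ?_⟩
  intro s ι _ _ G Z w c C hC hfam f hf B α hα
  obtain ⟨-, -, β, β', ε, hε, hB, hβ, htr⟩ := hα
  have hB0 : 0 ≤ B := le_trans (by positivity) hB
  obtain ⟨e, he, hee⟩ : ∃ e : ℝ, (e = 1 ∨ e = -1) ∧ (ε = (e : ℂ)) := by
    rcases hε with h | h
    · exact ⟨1, Or.inl rfl, by rw [h]; norm_num⟩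
    · exact ⟨-1, Or.inr rfl, by rw [h]; norm_num⟩
  have hee2 : (ε : ℂ) * ε = 1 := by
    rcases hε with h | h <;> rw [h] <;> norm_num
  have hne : ‖ε‖ = 1 := by
    rcases hε with h | h <;> rw [h] <;> norm_num
  refine ⟨e, he, ?_⟩
  intro m hm
  obtain ⟨q, hq⟩ : ∃ q : ℝ, q = Real.sqrt (Fintype.card F) := ⟨_, rfl⟩
  have hq1 : 1 ≤ q := by
    rw [hq]
    refine Real.one_le_sqrt.2 ?_
    exact_mod_cast Fintype.card_pos (α := F)
  have hq0 : 0 < q := by linarith
  have hfr : Module.finrank F (Em (m - 1)) = m := by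
    rw [hEm]
    omega
  have h1 := htr (Em (m - 1))
  have h2 := sum_split G Z c f hf (Em (m - 1))
  rw [hfr] at h1 h2
  rw [← hq]
  have hrsum : ∑ v ∈ PL F m, (rn (Em (m - 1)) v : ℝ) * y G Z c v (fun i => red v (f i)) =
      ∑ v ∈ PL F m, (rn (Em (deg v - 1)) v : ℝ) * y G Z c v (fun i => red v (f i)) := by
    refine sum_congr rfl fun v hv => ?_
    rw [mem_PL] at hv
    rw [hv]
  rw [hrsum] at h2
  obtain ⟨S, hS⟩ : ∃ S : ℝ, S = ∑ v ∈ PL F m, (rn (Em (deg v - 1)) v : ℝ) * y G Z c v (fun i => red v (f i)) := ⟨_, rfl⟩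
  rw [← hS] at h2 ⊢
  obtain ⟨R, hR⟩ : ∃ R : ℝ, R = ∑ t ∈ univ.filter (fun t : Em (m - 1) => deg (plc (F := F) t) < m),
        ((fib G (Em (m - 1)) (fun i => Polynomial.aeval t (f i)) : ℝ) - c m) := ⟨_, rfl⟩
  rw [← hR] at h2
  have hcardE : Real.sqrt (Fintype.card (Em (m - 1))) = q ^ m := by
    rw [card_ext (F := F) (E := Em (m - 1)), hfr]
    push_cast
    rw [sqrt_pow, hq]
  have hRb : |R| ≤ 2 * C * q ^ ((w + 1) * m) := by
    rw [hR]
    refine (abs_sum_le_sum_abs _ _).trans ?_
    have h3 : ∀ t ∈ univ.filter (fun t : Em (m - 1) => deg (plc (F := F) t) < m),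
        |(fib G (Em (m - 1)) (fun i => Polynomial.aeval t (f i)) : ℝ) - c m| ≤ C * q ^ (w * m) := by
      intro t _
      have h4 := hfam.1 (Em (m - 1)) _ (hf (Em (m - 1)) t)
      rw [hfr, hcardE, ← pow_mul, mul_comm m w] at h4
      exact h4
    refine (sum_le_sum h3).trans ?_
    rw [sum_const, nsmul_eq_mul]
    have h5 := small (F := F) (Em (m - 1))
    rw [hfr, hcardE, Nat.card_eq_fintype_card, Fintype.card_subtype] at h5
    calc ((univ.filter (fun t : Em (m - 1) => deg (plc (F := F) t) < m)).card : ℝ) * (C * q ^ (w * m)) ≤ (2 * q ^ m) * (C * q ^ (w * m)) :=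
          mul_le_mul_of_nonneg_right h5 (by positivity)
      _ = 2 * C * q ^ ((w + 1) * m) := by ring
  have htot : (tot G f (Em (m - 1)) : ℝ) = Fintype.card (Em (m - 1)) * c m + S + R := by
    rw [tot_eq]
    push_cast
    rw [sum_sub_distrib, sum_const, nsmul_eq_mul, card_univ] at h2
    linarith
  have hpow : ∀ (γ : Multiset ℂ), (∀ b ∈ γ, ‖b‖ ≤ q ^ w) → ‖(γ.map fun b => b ^ m).sum‖ ≤ Multiset.card γ * q ^ (w * m) := by
    intro γ
    induction γ using Multiset.induction_on with
    | empty => intro _; simp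
    | cons a t ih =>
      intro h
      rw [Multiset.map_cons, Multiset.sum_cons, Multiset.card_cons]
      refine (norm_add_le _ _).trans ?_
      have h3 := ih fun b hb => h b (Multiset.mem_cons_of_mem hb)
      have h4 : ‖a ^ m‖ ≤ q ^ (w * m) := by
        rw [norm_pow, pow_mul]
        exact pow_le_pow_left₀ (norm_nonneg _) (h a (Multiset.mem_cons_self a t)) m
      push_cast
      linarith
  rw [← hq] at hβ
  have hb1 := hpow β fun b hb => hβ b (Multiset.mem_add.2 (Or.inl hb))
  have hb2 := hpow β' fun b hb => hβ b (Multiset.mem_add.2 (Or.inr hb))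
  obtain ⟨P, hP⟩ : ∃ P : ℂ, P = (α.map fun a => a ^ m).sum := ⟨_, rfl⟩
  obtain ⟨X, hX⟩ : ∃ X : ℂ, X = (β.map fun a => a ^ m).sum := ⟨_, rfl⟩
  obtain ⟨Y, hY⟩ : ∃ Y : ℂ, Y = (β'.map fun a => a ^ m).sum := ⟨_, rfl⟩
  rw [← hX] at hb1
  rw [← hY] at hb2
  rw [← hP, ← hX, ← hY] at h1
  rw [← hP]
  have h3 : (tot G f (Em (m - 1)) : ℂ) = Fintype.card (Em (m - 1)) * (c m : ℂ) + S + R := by
    have := congrArg (fun x : ℝ => (x : ℂ)) htot
    push_cast at this
    exact this
  have h4 : P = ε * ((S : ℂ) + R - X + Y) := by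
    rw [h3] at h1
    linear_combination (-ε) * h1 - P * hee2
  have h5 : P / ((q ^ ((w + 1) * m) : ℝ) : ℂ) - ((e * (S / q ^ ((w + 1) * m)) : ℝ) : ℂ) = ε * ((R : ℂ) - X + Y) / ((q ^ ((w + 1) * m) : ℝ) : ℂ) := by
    rw [h4]
    push_cast
    rw [← hee]
    ring
  rw [h5, norm_div, norm_mul, hne, one_mul, Complex.norm_real, Real.norm_of_nonneg (by positivity)]
  rw [div_le_iff₀ (by positivity)]
  have h6 : ‖(R : ℂ) - X + Y‖ ≤ |R| + ‖X‖ + ‖Y‖ := by
    refine (norm_add_le _ _).trans ?_
    have := norm_sub_le (R : ℂ) X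
    rw [Complex.norm_real, Real.norm_eq_abs] at this
    linarith
  have h7 : (2 * C + B / q ^ m) * q ^ ((w + 1) * m) = 2 * C * q ^ ((w + 1) * m) + B * q ^ (w * m) := by
    have : q ^ ((w + 1) * m) = q ^ m * q ^ (w * m) := by ring
    rw [this]
    field_simp
  rw [h7]
  have h8 : (Multiset.card β : ℝ) * q ^ (w * m) + Multiset.card β' * q ^ (w * m) ≤ B * q ^ (w * m) := by
    rw [← add_mul]
    exact mul_le_mul_of_nonneg_right hB (by positivity)
  linarith

end Q282PB
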