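import Pool.Agent.Q282.FF.Om
import Pool.Agent.Q282.QF.Fej

/-!
# Pullbacks of a family of varieties by tuples of polynomials: the points
-/

set_option autoImplicit false
set_option linter.unusedSectionVars false

namespace Q282PB

open Finset MvPolynomial
open Q282.FF (Place deg Res red rt PL PB mem_PL mem_PB)

section

variable {F : Type} [Field F] {s : ℕ} {ι : Type}

/-- The number of the points over `E` of the fibre over `u` of the family given by the equations `G` in `x` and `u`. -/
noncomputable def fib (G : Set (MvPolynomial (Fin s ⊕ ι) F)) (E : Type) [Field E] [Algebra F E] (u : ι → E) : ℕ :=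
  Nat.card {x : Fin s → E // ∀ g ∈ G, aeval (Sum.elim x u) g = 0}

/-- The number of the points over `E` of the variety `V_f` of the `(t, x)` such that `x` lies in the fibre over `f(t)`. -/
noncomputable def tot (G : Set (MvPolynomial (Fin s ⊕ ι) F)) (f : ι → Polynomial F) (E : Type) [Field E] [Algebra F E] : ℕ :=
  Nat.card {P : E × (Fin s → E) // ∀ g ∈ G, aeval (Sum.elim P.2 fun i => Polynomial.aeval P.1 (f i)) g = 0}

/-- The points where some element of `Z` does not vanish. -/
def InU (Z : Set (MvPolynomial ι F)) (E : Type) [Field E] [Algebra F E] (u : ι → E) : Prop := ∃ z ∈ Z, aeval u z ≠ 0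

lemma fib_map (G : Set (MvPolynomial (Fin s ⊕ ι) F)) {E E' : Type} [Field E] [Algebra F E] [Field E'] [Algebra F E']
    (φ : E ≃ₐ[F] E') (u : ι → E) : fib G E' (fun i => φ (u i)) = fib G E u := by
  unfold fib
  refine (Nat.card_congr ?_).symm
  refine Equiv.subtypeEquiv (Equiv.arrowCongr (Equiv.refl _) φ.toEquiv) fun x => ?_
  refine forall₂_congr fun g _ => ?_
  have h1 : aeval (Sum.elim ((Equiv.arrowCongr (Equiv.refl (Fin s)) φ.toEquiv) x) fun i => φ (u i)) g = φ (aeval (Sum.elim x u) g) := by
    have h2 := MvPolynomial.comp_aeval_apply (Sum.elim x u) φ.toAlgHom g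
    refine Eq.trans ?_ h2.symm
    congr 2
    funext j
    rcases j with j | j <;> rfl
  rw [h1]
  exact (map_eq_zero_iff φ φ.injective).symm

lemma inU_map (Z : Set (MvPolynomial ι F)) {E E' : Type} [Field E] [Algebra F E] [Field E'] [Algebra F E']
    (φ : E ≃ₐ[F] E') (u : ι → E) : InU Z E' (fun i => φ (u i)) ↔ InU Z E u := by
  unfold InU
  refine exists_congr fun g => and_congr_right fun _ => ?_
  have h1 : aeval (fun i => φ (u i)) g = φ (aeval u g) := by
    exact (MvPolynomial.comp_aeval_apply u φ.toAlgHom g).symm
  rw [h1]
  exact (map_ne_zero_iff φ φ.injective)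

lemma tot_eq (G : Set (MvPolynomial (Fin s ⊕ ι) F)) (f : ι → Polynomial F) (E : Type) [Field E] [Fintype E] [Algebra F E] :
    tot G f E = ∑ t : E, fib G E (fun i => Polynomial.aeval t (f i)) := by
  classical
  unfold tot fib
  have e : {P : E × (Fin s → E) // ∀ g ∈ G, aeval (Sum.elim P.2 fun i => Polynomial.aeval P.1 (f i)) g = 0} ≃
      Σ t : E, {x : Fin s → E // ∀ g ∈ G, aeval (Sum.elim x fun i => Polynomial.aeval t (f i)) g = 0} :=
    { toFun := fun P => ⟨P.1.1, P.1.2, P.2⟩
      invFun := fun P => ⟨(P.1, P.2.1), P.2.2⟩
      left_inv := fun P => rfl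
      right_inv := fun P => rfl }
  rw [Nat.card_congr e, Nat.card_sigma]

end

section

variable {F : Type} [Field F]

noncomputable instance resAlgebra (v : Place F) : Algebra F (Res v) := inferInstanceAs (Algebra F (AdjoinRoot v.1))

lemma aeval_root (v : Place F) (p : Polynomial F) : Polynomial.aeval (red v Polynomial.X) p = red v p := by
  have h1 : (Polynomial.aeval (red v Polynomial.X) : Polynomial F →ₐ[F] Res v).toRingHom = red v := by
    refine Polynomial.ringHom_ext (fun a => ?_) ?_
    · show Polynomial.aeval (red v Polynomial.X) (Polynomial.C a) = red v (Polynomial.C a)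
      rw [Polynomial.aeval_C]
      rfl
    · show Polynomial.aeval (red v Polynomial.X) Polynomial.X = red v Polynomial.X
      rw [Polynomial.aeval_X]
  exact congrArg (fun f : Polynomial F →+* Res v => f p) h1

lemma isInt {E : Type} [Field E] [Finite E] [Algebra F E] (t : E) : IsIntegral F t := by
  have : Module.Finite F E := Module.Finite.of_finite
  exact Algebra.IsIntegral.isIntegral t

/-- the place of an element -/
noncomputable def plc {E : Type} [Field E] [Finite E] [Algebra F E] (t : E) : Place F :=
  ⟨minpoly F t, minpoly.monic (isInt t), minpoly.irreducible (isInt t)⟩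

/-- the homomorphism from the residue field -/
noncomputable def emb {E : Type} [Field E] [Finite E] [Algebra F E] (t : E) : Res (plc (F := F) t) →ₐ[F] E :=
  { AdjoinRoot.lift (algebraMap F E) t (minpoly.aeval F t) with
    commutes' := fun _ => AdjoinRoot.lift_of (minpoly.aeval F t) }

lemma emb_red {E : Type} [Field E] [Finite E] [Algebra F E] (t : E) (p : Polynomial F) :
    emb (F := F) t (red _ p) = Polynomial.aeval t p := AdjoinRoot.lift_mk (minpoly.aeval F t) p

lemma finrank_res (v : Place F) : Module.finrank F (Res v) = deg v := by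
  have h1 : Module.finrank F (AdjoinRoot v.1) = v.1.natDegree := by
    rw [(AdjoinRoot.powerBasis v.2.2.ne_zero).finrank, AdjoinRoot.powerBasis_dim]
  exact h1

/-- an element of full degree -/
lemma exists_equiv [Fintype F] {E : Type} [Field E] [Finite E] [Algebra F E] (t : E)
    (ht : deg (plc (F := F) t) = Module.finrank F E) :
    ∃ φ : Res (plc (F := F) t) ≃ₐ[F] E, ∀ p, φ (red _ p) = Polynomial.aeval t p := by
  classical
  have hinj : Function.Injective (emb (F := F) t) := (emb (F := F) t).toRingHom.injective
  have hfd : Module.Finite F E := Module.Finite.of_finite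
  have hc : Nat.card (Res (plc (F := F) t)) = Nat.card E := by
    rw [Q282.FF.res_card, ht, Module.natCard_eq_pow_finrank (K := F) (V := E)]
  have hbij : Function.Bijective (emb (F := F) t) := hinj.bijective_of_nat_card_le hc.ge
  exact ⟨AlgEquiv.ofBijective (emb t) hbij, fun p => emb_red t p⟩

end

end Q282PB
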