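import Pool.Agent.Q282.PB.Pts

/-!
# Pullbacks of a family of varieties by tuples of polynomials: the power sums
-/

set_option autoImplicit false
set_option linter.unusedSectionVars false

namespace Q282PB

open Finset MvPolynomial
open Q282.FF (Place deg Res red PL mem_PL)
open Q282QF (exists_ext card_ext card_roots_le)

section

variable {F : Type} [Field F] [Fintype F] {s : ℕ} {ι : Type} [Fintype ι]

/-- The conditions on the family: over `U` the numbers of points of the fibres over all finite extensions `E` of `F` differ from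
`c` by at most `C √|E| ^ w`, and the average of the difference is at most `C √|E| ^ (w - 1)`. -/
def IsFamily (G : Set (MvPolynomial (Fin s ⊕ ι) F)) (Z : Set (MvPolynomial ι F)) (w : ℕ) (c : ℕ → ℝ) (C : ℝ) : Prop :=
  (∀ (E : Type) [Field E] [Fintype E] [Algebra F E] (u : ι → E), InU Z E u →
    |(fib G E u : ℝ) - c (Module.finrank F E)| ≤ C * Real.sqrt (Fintype.card E) ^ w) ∧
  ∀ (E : Type) [Field E] [Fintype E] [Algebra F E],
    Real.sqrt (Fintype.card E) * |∑ᶠ u ∈ {u : ι → E | InU Z E u}, ((fib G E u : ℝ) - c (Module.finrank F E))| ≤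
      C * (Fintype.card E : ℝ) ^ Fintype.card ι * Real.sqrt (Fintype.card E) ^ w

/-- All the values of `f` lie in `U`. -/
def MapsTo (Z : Set (MvPolynomial ι F)) (f : ι → Polynomial F) : Prop :=
  ∀ (E : Type) [Field E] [Fintype E] [Algebra F E] (t : E), InU Z E fun i => Polynomial.aeval t (f i)

/-- `α` is the part of size `√q ^ (w + 1)` of the Frobenius eigenvalues on the cohomology of `V_f`, and there are at most `B`
others. -/
def IsSpectrum (G : Set (MvPolynomial (Fin s ⊕ ι) F)) (w : ℕ) (c : ℕ → ℝ) (f : ι → Polynomial F) (B : ℝ) (α : Multiset ℂ) : Prop :=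
  (Multiset.card α : ℝ) ≤ B ∧ (∀ a ∈ α, ‖a‖ = Real.sqrt (Fintype.card F) ^ (w + 1)) ∧
  ∃ (β β' : Multiset ℂ) (ε : ℂ), (ε = 1 ∨ ε = -1) ∧ (Multiset.card β : ℝ) + Multiset.card β' ≤ B ∧
    (∀ b ∈ β + β', ‖b‖ ≤ Real.sqrt (Fintype.card F) ^ w) ∧
    ∀ (E : Type) [Field E] [Fintype E] [Algebra F E],
      (tot G f E : ℂ) = Fintype.card E * (c (Module.finrank F E) : ℂ) + ε * (α.map fun a => a ^ Module.finrank F E).sum +
        (β.map fun b => b ^ Module.finrank F E).sum - (β'.map fun b => b ^ Module.finrank F E).sum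

/-- the number of the elements at a place -/
noncomputable def rn (E : Type) [Field E] [Fintype E] [Algebra F E] (v : Place F) : ℕ := by
  classical
  exact (univ.filter fun t : E => plc (F := F) t = v).card

lemma rn_le (E : Type) [Field E] [Fintype E] [Algebra F E] (v : Place F) : rn E v ≤ deg v := by
  classical
  unfold rn
  have h1 := Polynomial.card_roots' (v.1.map (algebraMap F E))
  rw [Polynomial.natDegree_map] at h1
  refine le_trans ?_ h1
  refine le_trans ?_ (Multiset.toFinset_card_le _)
  refine card_le_card fun t ht => ?_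
  rw [mem_filter] at ht
  rw [Multiset.mem_toFinset, Polynomial.mem_roots (Polynomial.map_ne_zero v.2.2.ne_zero), Polynomial.IsRoot, Polynomial.eval_map_algebraMap]
  rw [← ht.2]
  exact minpoly.aeval F t

lemma geo_q {q : ℕ} (hq : 2 ≤ q) (M : ℕ) : ∑ d ∈ Icc 1 M, q ^ d ≤ 2 * q ^ M := by
  induction M with
  | zero => simp
  | succ M ih =>
    rw [sum_Icc_succ_top (by omega)]
    have h1 : 2 * q ^ M ≤ q * q ^ M := Nat.mul_le_mul_right _ hq
    rw [pow_succ, mul_comm (q ^ M) q]
    omega

/-- the elements of smaller degree -/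
lemma small (E : Type) [Field E] [Fintype E] [Algebra F E] :
    (Nat.card {t : E // deg (plc (F := F) t) < Module.finrank F E} : ℝ) ≤ 2 * Real.sqrt (Fintype.card E) := by
  classical
  obtain ⟨m, hm⟩ : ∃ m, m = Module.finrank F E := ⟨_, rfl⟩
  have hq : 2 ≤ Fintype.card F := Fintype.one_lt_card
  have hfd : Module.Finite F E := Module.Finite.of_finite
  have h1 : (univ.filter fun t : E => deg (plc (F := F) t) < Module.finrank F E) ⊆
      (Icc 1 (m / 2)).biUnion fun d => univ.filter fun t : E => t ^ (Fintype.card F ^ d) = t := by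
    intro t ht
    rw [mem_filter] at ht
    rw [mem_biUnion]
    have h2 : deg (plc (F := F) t) ∣ m := by
      rw [hm]
      exact minpoly.degree_dvd (isInt t)
    have h3 := ht.2
    rw [← hm] at h3
    have h4 : 1 ≤ deg (plc (F := F) t) := Q282.FF.deg_pos _
    refine ⟨deg (plc (F := F) t), ?_, ?_⟩
    · rw [mem_Icc]
      refine ⟨h4, ?_⟩
      obtain ⟨e, he⟩ := h2
      rw [Nat.le_div_iff_mul_le (by norm_num)]
      have he2 : 2 ≤ e := by
        by_contra hlt
        have : e = 0 ∨ e = 1 := by omega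
        rcases this with rfl | rfl
        · rw [mul_zero] at he
          omega
        · omega
      rw [he]
      exact Nat.mul_le_mul_left _ he2
    · rw [mem_filter]
      refine ⟨mem_univ _, ?_⟩
      have h5 : emb (F := F) t (red _ Polynomial.X) = t := by rw [emb_red, Polynomial.aeval_X]
      have h6 : Fintype.card F ^ deg (plc (F := F) t) = Fintype.card (Res (plc (F := F) t)) := by
        rw [← Nat.card_eq_fintype_card (α := F), Q282.FF.res_card']
      have h7 : emb (F := F) t (red _ Polynomial.X ^ Fintype.card (Res (plc (F := F) t))) = emb (F := F) t (red _ Polynomial.X) := by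
        rw [FiniteField.pow_card]
      rw [map_pow, h5] at h7
      rw [h6]
      exact h7
  have h2 : (univ.filter fun t : E => deg (plc (F := F) t) < Module.finrank F E).card ≤ 2 * Fintype.card F ^ (m / 2) := by
    refine (card_le_card h1).trans (card_biUnion_le.trans (le_trans ?_ (geo_q hq (m / 2))))
    refine sum_le_sum fun d hd => ?_
    rw [mem_Icc] at hd
    have h3 := card_roots_le (E := E) (Fintype.card F ^ d) (Nat.one_lt_pow (by omega) (by omega))
    rwa [Nat.card_eq_fintype_card, Fintype.card_subtype] at h3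
  rw [Nat.card_eq_fintype_card, Fintype.card_subtype]
  have h3 : ((univ.filter fun t : E => deg (plc (F := F) t) < Module.finrank F E).card : ℝ) ≤ 2 * (Fintype.card F : ℝ) ^ (m / 2) := by
    exact_mod_cast h2
  refine h3.trans (mul_le_mul_of_nonneg_left ?_ (by norm_num))
  have hF0 : (1 : ℝ) ≤ Fintype.card F := by exact_mod_cast (by omega : 1 ≤ Fintype.card F)
  refine Real.le_sqrt_of_sq_le ?_
  rw [card_ext (F := F) (E := E), ← hm, ← pow_mul]
  push_cast
  exact pow_le_pow_right₀ hF0 (by omega)

variable [DecidableEq F] [DecidableEq ι]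

open Classical in
/-- the difference at a place -/
noncomputable def y (G : Set (MvPolynomial (Fin s ⊕ ι) F)) (Z : Set (MvPolynomial ι F)) (c : ℕ → ℝ) (v : Place F) (u : ι → Res v) : ℝ :=
  if InU Z (Res v) u then (fib G (Res v) u : ℝ) - c (deg v) else 0

lemma sqrt_pow (m : ℕ) : Real.sqrt ((Fintype.card F : ℝ) ^ m) = Real.sqrt (Fintype.card F) ^ m := by
  have hq : (0 : ℝ) ≤ Fintype.card F := Nat.cast_nonneg _
  rw [Real.sqrt_eq_iff_mul_self_eq (by positivity) (by positivity), ← mul_pow, Real.mul_self_sqrt hq]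

lemma card_res (v : Place F) : (Fintype.card (Res v) : ℝ) = (Fintype.card F : ℝ) ^ deg v := by
  classical
  rw [Q282.FF.res_card', Nat.card_eq_fintype_card]
  push_cast
  rfl

lemma y_abs {G : Set (MvPolynomial (Fin s ⊕ ι) F)} {Z : Set (MvPolynomial ι F)} {w : ℕ} {c : ℕ → ℝ} {C : ℝ} (hC : 0 ≤ C)
    (h : IsFamily G Z w c C) (v : Place F) (u : ι → Res v) : |y G Z c v u| ≤ C * Real.sqrt (Fintype.card F) ^ (w * deg v) := by
  classical
  unfold y
  split_ifs with h1
  · have h2 := h.1 (Res v) u h1
    rw [finrank_res, card_res, sqrt_pow, ← pow_mul, mul_comm (deg v) w] at h2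
    exact h2
  · rw [abs_zero]
    positivity

lemma y_av {G : Set (MvPolynomial (Fin s ⊕ ι) F)} {Z : Set (MvPolynomial ι F)} {w : ℕ} {c : ℕ → ℝ} {C : ℝ}
    (h : IsFamily G Z w c C) (v : Place F) :
    |Q282.CL.av (y G Z c v)| ≤ C * Real.sqrt (Fintype.card F) ^ (w * deg v) / Real.sqrt (Fintype.card F) ^ deg v := by
  classical
  have h2 := h.2 (Res v)
  rw [finrank_res, card_res, sqrt_pow] at h2
  have h3 : ∑ᶠ u ∈ {u : ι → Res v | InU Z (Res v) u}, ((fib G (Res v) u : ℝ) - c (deg v)) = ∑ u, y G Z c v u := by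
    rw [finsum_mem_eq_finite_toFinset_sum _ (Set.toFinite _)]
    unfold y
    rw [← sum_filter]
    refine sum_congr ?_ fun _ _ => rfl
    ext u
    rw [Set.Finite.mem_toFinset, mem_filter]
    exact ⟨fun h => ⟨mem_univ _, h⟩, fun h => h.2⟩
  rw [h3] at h2
  have hs : 0 < Real.sqrt (Fintype.card F) := Real.sqrt_pos.2 (by exact_mod_cast Fintype.card_pos)
  have hs1 : 0 < Real.sqrt (Fintype.card F) ^ deg v := by positivity
  have hc : (0 : ℝ) < ((Fintype.card F : ℝ) ^ deg v) ^ Fintype.card ι := by
    have : (0 : ℝ) < Fintype.card F := by exact_mod_cast Fintype.card_pos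
    positivity
  unfold Q282.CL.av
  have hcard : (Fintype.card (ι → Res v) : ℝ) = ((Fintype.card F : ℝ) ^ deg v) ^ Fintype.card ι := by
    rw [Fintype.card_fun]
    push_cast
    rw [card_res]
  rw [hcard, abs_div, abs_of_pos hc, div_le_div_iff₀ hc hs1, mul_comm |_| _]
  refine h2.trans (le_of_eq ?_)
  rw [mul_comm w (deg v), pow_mul (Real.sqrt (Fintype.card F)) (deg v) w]
  ring

end

end Q282PB
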