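import Pool.Agent.Q282.PB.Prob

/-!
# Pullbacks of a family of varieties by tuples of polynomials: the eigenvalues near a fixed point
-/

set_option autoImplicit false
set_option linter.unusedSectionVars false

namespace Q282PB

open Finset MvPolynomial
open Q282.FF (Place deg Res red PL PB mem_PL mem_PB rt)
open Q282.CL

open Classical in
/-- the number of the pairs -/
noncomputable def nr {J : Type} [Fintype J] (α : Multiset ℂ) (e : J → ℂ) (γ : ℂ) (ρ : ℝ) : ℕ :=
  ∑ j, Multiset.card (α.filter fun a => ‖e j * a - γ‖ ≤ ρ)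

lemma nr_mono {J : Type} [Fintype J] (α : Multiset ℂ) (e : J → ℂ) (γ : ℂ) {ρ ρ' : ℝ} (h : ρ ≤ ρ') : nr α e γ ρ ≤ nr α e γ ρ' := by
  classical
  unfold nr
  exact sum_le_sum fun j _ => Multiset.card_le_card (Multiset.monotone_filter_right _ fun a (ha : ‖e j * a - γ‖ ≤ ρ) => ha.trans h)

section

variable {F : Type} [Field F] [Fintype F] [DecidableEq F] {s : ℕ} {ι : Type} [Fintype ι] [DecidableEq ι]

variable {r : Place F → ℕ} (hr : ∀ v, r v ≤ deg v) {G : Set (MvPolynomial (Fin s ⊕ ι) F)} {Z : Set (MvPolynomial ι F)}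
  {w : ℕ} {c : ℕ → ℝ} {C : ℝ} (hC : 0 < C) (hfam : IsFamily G Z w c C)

include hr hC hfam in
open Classical in
/-- the probability that the random polynomial is large at some fixed points -/
theorem prob_pts (g : ι → Polynomial F) {n h K : ℕ} (hK : 1 ≤ K) (hh : 1 ≤ h) (hn : 2 * K * h ≤ n) {y : ℝ} (hy : 0 < y)
    {J : Type} [Fintype J] [Nonempty J] (x : J → ℂ) (hx : ∀ j, ‖x j‖ = 1) :
    ((univ.filter fun t : ι → Polynomial.degreeLT F n => y * Fintype.card J ≤ ∑ j, ‖QP r G Z w c (fun i => g i + (t i).1) h (x j)‖).card : ℝ) ≤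
      2 * (44 * C ^ 2 * K * h ^ 4 / y ^ 2) ^ K * Fintype.card (ι → Polynomial.degreeLT F n) := by
  have hJ : (0 : ℝ) < Fintype.card J := by exact_mod_cast Fintype.card_pos
  obtain ⟨X, hX⟩ : ∃ X : (ι → Polynomial.degreeLT F n) → ℝ, X = fun t =>
    ∑ j, ‖QP r G Z w c (fun i => g i + (t i).1) h (x j)‖ ^ (2 * K) := ⟨_, rfl⟩
  have hX0 : ∀ t, 0 ≤ X t := fun t => by
    rw [hX]
    exact sum_nonneg fun _ _ => by positivity
  have hav : av X ≤ Fintype.card J * (2 * (44 * C ^ 2 * K * h ^ 4) ^ K) := by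
    rw [hX, av_sum]
    refine (sum_le_sum fun j _ => mom_pt hr hC hfam g hK hh hn (z := x j) (hx j)).trans (le_of_eq ?_)
    rw [sum_const, card_univ, nsmul_eq_mul]
  have hc : (0 : ℝ) < Fintype.card (ι → Polynomial.degreeLT F n) := by exact_mod_cast Fintype.card_pos
  have hlarge : ∀ t : ι → Polynomial.degreeLT F n, y * Fintype.card J ≤ ∑ j, ‖QP r G Z w c (fun i => g i + (t i).1) h (x j)‖ →
      Fintype.card J * y ^ (2 * K) ≤ X t := by
    intro t ht
    have h1 := pow_sum_div_card_le_sum_pow (s := (univ : Finset J))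
      (f := fun j => ‖QP r G Z w c (fun i => g i + (t i).1) h (x j)‖) (fun _ _ => norm_nonneg _) (2 * K - 1)
    have h2 : 2 * K - 1 + 1 = 2 * K := by omega
    rw [h2, card_univ] at h1
    rw [hX]
    refine le_trans ?_ h1
    rw [le_div_iff₀ (by positivity)]
    have h3 := pow_le_pow_left₀ (by positivity) ht (2 * K)
    refine le_trans (le_of_eq ?_) h3
    have h4 : (Fintype.card J : ℝ) ^ (2 * K) = Fintype.card J * (Fintype.card J : ℝ) ^ (2 * K - 1) := by
      rw [← pow_succ', h2]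
    rw [mul_pow, h4]
    ring
  obtain ⟨S, hS⟩ : ∃ S : Finset (ι → Polynomial.degreeLT F n), S = univ.filter fun t : ι → Polynomial.degreeLT F n =>
    y * Fintype.card J ≤ ∑ j, ‖QP r G Z w c (fun i => g i + (t i).1) h (x j)‖ := ⟨_, rfl⟩
  rw [← hS]
  have h1 : (S.card : ℝ) * (Fintype.card J * y ^ (2 * K)) ≤ ∑ t, X t := by
    calc (S.card : ℝ) * (Fintype.card J * y ^ (2 * K)) = ∑ t ∈ S, Fintype.card J * y ^ (2 * K) := by rw [sum_const, nsmul_eq_mul]
      _ ≤ ∑ t ∈ S, X t := sum_le_sum fun t ht => by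
        rw [hS, mem_filter] at ht
        exact hlarge t ht.2
      _ ≤ ∑ t, X t := sum_le_sum_of_subset_of_nonneg (subset_univ _) fun t _ _ => hX0 t
  unfold av at hav
  rw [div_le_iff₀ hc] at hav
  have h2 := h1.trans hav
  have hy2 : 0 < y ^ (2 * K) := by positivity
  rw [div_pow, ← pow_mul]
  have e : 2 * ((44 * C ^ 2 * K * h ^ 4) ^ K / y ^ (2 * K)) * (Fintype.card (ι → Polynomial.degreeLT F n) : ℝ) =
      ((2 * (44 * C ^ 2 * K * h ^ 4) ^ K) * Fintype.card (ι → Polynomial.degreeLT F n)) / y ^ (2 * K) := by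
    field_simp
  rw [e, le_div_iff₀ hy2]
  have h3 : (Fintype.card J : ℝ) * (S.card * y ^ (2 * K)) ≤
      Fintype.card J * ((2 * (44 * C ^ 2 * K * h ^ 4) ^ K) * Fintype.card (ι → Polynomial.degreeLT F n)) := by
    nlinarith
  exact le_of_mul_le_mul_left h3 hJ

end

open Classical in
/-- **The eigenvalues near a fixed point.** -/
theorem tails {F : Type} [Field F] [Fintype F] {s : ℕ} {ι : Type} [Fintype ι] (G : Set (MvPolynomial (Fin s ⊕ ι) F))
    (Z : Set (MvPolynomial ι F)) (w : ℕ) (c : ℕ → ℝ) (C κ : ℝ) (hC : 0 < C) (hκ : 0 ≤ κ) (hfam : IsFamily G Z w c C)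
    (g : ι → Polynomial F) (n K : ℕ) (hn : 1 ≤ n) (hK : 1 ≤ K) {J : Type} [Fintype J] (e : J → ℂ) (he : ∀ j, ‖e j‖ = 1)
    (γ : ℂ) (hγ : ‖γ‖ = Real.sqrt (Fintype.card F) ^ (w + 1)) :
    ((univ.filter fun t : ι → Polynomial.degreeLT F n => MapsTo Z (fun i => g i + (t i).1) ∧ ∃ α : Multiset ℂ,
      IsSpectrum G w c (fun i => g i + (t i).1) (κ * n) α ∧
        100 * (κ + C) * K * Fintype.card J < nr α e γ (2 * K * Real.sqrt (Fintype.card F) ^ (w + 1) / n)).card : ℝ) ≤
      2 / (K : ℝ) ^ K * Fintype.card (ι → Polynomial.degreeLT F n) := by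
  have hK' : (1 : ℝ) ≤ K := by exact_mod_cast hK
  have hn' : (1 : ℝ) ≤ n := by exact_mod_cast hn
  have hR : 0 < Real.sqrt (Fintype.card F) ^ (w + 1) := by
    have : 0 < Real.sqrt (Fintype.card F) := Real.sqrt_pos.2 (by exact_mod_cast Fintype.card_pos)
    positivity
  obtain ⟨R, hRR⟩ : ∃ R, R = Real.sqrt (Fintype.card F) ^ (w + 1) := ⟨_, rfl⟩
  rw [← hRR] at hR hγ ⊢
  have hγ0 : γ ≠ 0 := by
    rintro rfl
    rw [norm_zero] at hγ
    linarith
  have he0 : ∀ j, e j ≠ 0 := by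
    intro j h
    have := he j
    rw [h, norm_zero] at this
    exact zero_ne_one this
  have hnr : ∀ (α : Multiset ℂ) (ρ : ℝ), (nr α e γ ρ : ℝ) = ∑ j, (Multiset.card (α.filter fun a => ‖a - γ / e j‖ ≤ ρ) : ℝ) := by
    intro α ρ
    unfold nr
    push_cast
    refine sum_congr rfl fun j _ => ?_
    congr 2
    refine Multiset.filter_congr fun a _ => ?_
    have h5 : e j * a - γ = e j * (a - γ / e j) := by
      have := he0 j
      field_simp
    rw [h5, norm_mul, he, one_mul]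
  rcases isEmpty_or_nonempty J with hJ | hJ
  · have h0 : (univ.filter fun t : ι → Polynomial.degreeLT F n => MapsTo Z (fun i => g i + (t i).1) ∧ ∃ α : Multiset ℂ,
      IsSpectrum G w c (fun i => g i + (t i).1) (κ * n) α ∧ 100 * (κ + C) * K * Fintype.card J < nr α e γ (2 * K * R / n)) = ∅ := by
      rw [filter_eq_empty_iff]
      rintro t - ⟨-, α, -, hlt⟩
      rw [hnr] at hlt
      simp at hlt
    rw [h0]
    simp
    positivity
  have hJ1 : (1 : ℝ) ≤ Fintype.card J := by exact_mod_cast Fintype.card_pos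
  rcases lt_or_ge n (2 * K) with hlt | hge
  · have h0 : (univ.filter fun t : ι → Polynomial.degreeLT F n => MapsTo Z (fun i => g i + (t i).1) ∧ ∃ α : Multiset ℂ,
      IsSpectrum G w c (fun i => g i + (t i).1) (κ * n) α ∧ 100 * (κ + C) * K * Fintype.card J < nr α e γ (2 * K * R / n)) = ∅ := by
      rw [filter_eq_empty_iff]
      rintro t - ⟨-, α, hα, hlt2⟩
      have h2 := hα.1
      have h1 : (nr α e γ (2 * K * R / n) : ℝ) ≤ Fintype.card J * Multiset.card α := by
        rw [hnr]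
        refine (sum_le_sum (g := fun _ => (Multiset.card α : ℝ)) fun j _ => ?_).trans (le_of_eq ?_)
        · exact_mod_cast Multiset.card_le_card (Multiset.filter_le _ _)
        · rw [sum_const, card_univ, nsmul_eq_mul]
      have h3 : (n : ℝ) ≤ 2 * K := by exact_mod_cast hlt.le
      have h4 : κ * n ≤ κ * (2 * K) := mul_le_mul_of_nonneg_left h3 hκ
      have h5 : 0 ≤ κ * K := by positivity
      have h6 : 0 < C * K := by positivity
      have h7 : (Multiset.card α : ℝ) ≤ 100 * (κ + C) * K := by nlinarith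
      have h8 := mul_le_mul_of_nonneg_left h7 (by linarith : (0 : ℝ) ≤ Fintype.card J)
      linarith
    rw [h0]
    simp
    positivity
  · obtain ⟨h, hh⟩ : ∃ h, h = n / (2 * K) := ⟨_, rfl⟩
    have hh1 : 1 ≤ h := by
      rw [hh, Nat.one_le_div_iff (by omega)]
      exact hge
    have hhn : 2 * K * h ≤ n := by
      rw [hh]
      exact Nat.mul_div_le n (2 * K)
    have hhn2 : n ≤ 4 * K * h := by
      have h1 := Nat.lt_mul_div_succ n (show 0 < 2 * K by omega)
      rw [← hh] at h1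
      nlinarith
    have hh' : (0 : ℝ) < h := by exact_mod_cast hh1
    obtain ⟨r, hr, hps⟩ := pow_sum F
    have hp := prob_pts (n := n) hr hC hfam g hK hh1 hhn (y := 7 * C * K * h ^ 2) (by positivity)
      (fun j : J => (R : ℂ) / (γ / e j)) (fun j => by
        rw [norm_div, norm_div, hγ, he, div_one, Complex.norm_real, Real.norm_of_nonneg hR.le, div_self hR.ne'])
    have hsub : (univ.filter fun t : ι → Polynomial.degreeLT F n => MapsTo Z (fun i => g i + (t i).1) ∧ ∃ α : Multiset ℂ,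
      IsSpectrum G w c (fun i => g i + (t i).1) (κ * n) α ∧ 100 * (κ + C) * K * Fintype.card J < nr α e γ (2 * K * R / n)) ⊆
      (univ.filter fun t : ι → Polynomial.degreeLT F n => 7 * C * K * h ^ 2 * Fintype.card J ≤
        ∑ j, ‖QP r G Z w c (fun i => g i + (t i).1) h ((R : ℂ) / (γ / e j))‖) := by
      intro t ht
      rw [mem_filter] at ht ⊢
      refine ⟨mem_univ _, ?_⟩
      obtain ⟨-, hmap, α, hα, hlt⟩ := ht
      by_contra hcon
      rw [not_le] at hcon
      obtain ⟨ε, hε, h1⟩ := hps s ι G Z w c C hC.le hfam _ hmap _ α hα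
      have h4 : 24 * (κ * n) / h ≤ 96 * κ * K := by
        rw [div_le_iff₀ hh']
        have h5 : (n : ℝ) ≤ 4 * K * h := by exact_mod_cast hhn2
        have h6 := mul_le_mul_of_nonneg_left h5 hκ
        nlinarith
      have hterm : ∀ j ∈ (univ : Finset J), (Multiset.card (α.filter fun a => ‖a - γ / e j‖ ≤ 2 * K * R / n) : ℝ) ≤
          96 * κ * K + 12 * C + 8 / (h : ℝ) ^ 2 * ‖QP r G Z w c (fun i => g i + (t i).1) h ((R : ℂ) / (γ / e j))‖ := by
        intro j _
        have h2 := clus_le hr hC.le hfam hα hε h1 hh1 (γ := γ / e j) (by rw [norm_div, he, div_one, hγ, hRR])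
        rw [← hRR] at h2
        have h3 : (Multiset.card (α.filter fun a => ‖a - γ / e j‖ ≤ 2 * K * R / n) : ℝ) ≤
            Multiset.card (α.filter fun a => ‖a - γ / e j‖ ≤ R / h) := by
          have h4 : 2 * K * R / n ≤ R / h := by
            rw [div_le_div_iff₀ (by linarith) hh']
            have h5 : 2 * (K : ℝ) * h ≤ n := by exact_mod_cast hhn
            nlinarith
          exact_mod_cast Multiset.card_le_card (Multiset.monotone_filter_right _ fun a (ha : ‖a - γ / e j‖ ≤ 2 * K * R / n) => le_trans ha h4)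
        have h5 : 8 * ‖QP r G Z w c (fun i => g i + (t i).1) h ((R : ℂ) / (γ / e j))‖ / h ^ 2 =
            8 / (h : ℝ) ^ 2 * ‖QP r G Z w c (fun i => g i + (t i).1) h ((R : ℂ) / (γ / e j))‖ := by ring
        rw [h5] at h2
        linarith
      have hsum := sum_le_sum hterm
      rw [← hnr, sum_add_distrib, ← mul_sum, sum_const, card_univ, nsmul_eq_mul] at hsum
      have h5 : 8 / (h : ℝ) ^ 2 * ∑ j, ‖QP r G Z w c (fun i => g i + (t i).1) h ((R : ℂ) / (γ / e j))‖ ≤ 56 * C * K * Fintype.card J := by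
        rw [div_mul_eq_mul_div, div_le_iff₀ (by positivity)]
        nlinarith
      have h7 : C ≤ C * K := le_mul_of_one_le_right hC.le hK'
      have h8 : (Fintype.card J : ℝ) * (96 * κ * K + 12 * C) + 56 * C * K * Fintype.card J ≤ 100 * (κ + C) * K * Fintype.card J := by
        have h9 : 96 * κ * K + 12 * C + 56 * C * K ≤ 100 * (κ + C) * K := by
          have : 0 ≤ κ * K := by positivity
          nlinarith
        have h10 := mul_le_mul_of_nonneg_left h9 (by linarith : (0 : ℝ) ≤ Fintype.card J)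
        nlinarith
      linarith
    refine (Nat.cast_le.2 (card_le_card hsub)).trans (hp.trans ?_)
    refine mul_le_mul_of_nonneg_right ?_ (Nat.cast_nonneg _)
    have h1 : 44 * C ^ 2 * K * (h : ℝ) ^ 4 / (7 * C * K * h ^ 2) ^ 2 ≤ 1 / K := by
      rw [div_le_div_iff₀ (by positivity) (by positivity)]
      have : 0 ≤ C ^ 2 * K ^ 2 * (h : ℝ) ^ 4 := by positivity
      nlinarith
    have h2 : (44 * C ^ 2 * K * (h : ℝ) ^ 4 / (7 * C * K * h ^ 2) ^ 2) ^ K ≤ 1 / (K : ℝ) ^ K := by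
      rw [← one_div_pow]
      exact pow_le_pow_left₀ (by positivity) h1 K
    calc 2 * (44 * C ^ 2 * K * (h : ℝ) ^ 4 / (7 * C * K * h ^ 2) ^ 2) ^ K ≤ 2 * (1 / (K : ℝ) ^ K) :=
          mul_le_mul_of_nonneg_left h2 (by norm_num)
      _ = 2 / (K : ℝ) ^ K := by ring

lemma exp_layers (N s : ℝ) (hs : 0 ≤ s) (L : ℕ) (hN : N ≤ L + 1) :
    Real.exp (s * N) ≤ Real.exp s + ∑ K ∈ Icc 1 L, if (K : ℝ) < N then Real.exp (s * (K + 1)) else 0 := by
  classical
  have hnn : ∀ K ∈ Icc 1 L, (0 : ℝ) ≤ if (K : ℝ) < N then Real.exp (s * (K + 1)) else 0 := by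
    intro K _
    split_ifs
    · exact (Real.exp_pos _).le
    · exact le_rfl
  rcases le_or_gt N 1 with h1 | h1
  · have h2 : Real.exp (s * N) ≤ Real.exp s := Real.exp_le_exp.2 (by nlinarith)
    have h3 := sum_nonneg hnn
    linarith
  · obtain ⟨k, hk⟩ : ∃ k, k = ⌈N⌉₊ := ⟨_, rfl⟩
    have h2 : N ≤ k := by
      rw [hk]
      exact Nat.le_ceil N
    have h3 : (k : ℝ) < N + 1 := by
      rw [hk]
      exact Nat.ceil_lt_add_one (by linarith)
    have h4 : 2 ≤ k := by
      have : (1 : ℝ) < k := lt_of_lt_of_le h1 h2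
      have h5 : 1 < k := by exact_mod_cast this
      omega
    obtain ⟨K, rfl⟩ : ∃ K, k = K + 1 := ⟨k - 1, by omega⟩
    have h5 : K ∈ Icc 1 L := by
      rw [mem_Icc]
      refine ⟨by omega, ?_⟩
      have h6 : ⌈N⌉₊ ≤ L + 1 := Nat.ceil_le.2 (by exact_mod_cast hN)
      omega
    have h6 : (K : ℝ) < N := by
      push_cast at h3
      linarith
    have h7 := single_le_sum hnn h5
    rw [if_pos h6] at h7
    have h8 : Real.exp (s * N) ≤ Real.exp (s * (K + 1)) := by
      refine Real.exp_le_exp.2 (mul_le_mul_of_nonneg_left ?_ hs)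
      push_cast at h2
      exact h2
    have h9 := Real.exp_pos s
    linarith

lemma sum_layers (s : ℝ) (L : ℕ) : ∑ K ∈ Icc 1 L, Real.exp (s * (K + 1)) * (2 / (K : ℝ) ^ K) ≤
    2 * Real.exp s * (Real.exp (Real.exp s) - 1) := by
  have h1 : ∀ K ∈ Icc 1 L, Real.exp (s * (K + 1)) * (2 / (K : ℝ) ^ K) ≤ 2 * Real.exp s * (Real.exp s ^ K / K.factorial) := by
    intro K hK
    rw [mem_Icc] at hK
    have hf : (K.factorial : ℝ) ≤ (K : ℝ) ^ K := by exact_mod_cast Nat.factorial_le_pow K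
    have hf0 : (0 : ℝ) < K.factorial := by exact_mod_cast Nat.factorial_pos K
    have h2 : Real.exp (s * (K + 1)) = Real.exp s * Real.exp s ^ K := by
      rw [← Real.exp_nat_mul, ← Real.exp_add]
      congr 1
      ring
    rw [h2]
    calc Real.exp s * Real.exp s ^ K * (2 / (K : ℝ) ^ K) ≤ Real.exp s * Real.exp s ^ K * (2 / K.factorial) :=
          mul_le_mul_of_nonneg_left (div_le_div_of_nonneg_left (by norm_num) hf0 hf) (by positivity)
      _ = 2 * Real.exp s * (Real.exp s ^ K / K.factorial) := by ring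
  refine (sum_le_sum h1).trans ?_
  rw [← mul_sum]
  refine mul_le_mul_of_nonneg_left ?_ (by positivity)
  have h2 := Real.sum_le_exp_of_nonneg (Real.exp_pos s).le (L + 1)
  rw [sum_range_succ'] at h2
  have h3 : ∑ K ∈ Icc 1 L, Real.exp s ^ K / K.factorial = ∑ K ∈ range L, Real.exp s ^ (K + 1) / (K + 1).factorial := by
    rw [range_eq_Ico, sum_Ico_add' (fun K => Real.exp s ^ K / (K.factorial : ℝ)) 0 L 1]
    rfl
  rw [h3]
  simp only [pow_zero, Nat.factorial_zero, Nat.cast_one, div_one] at h2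
  linarith

open Classical in
/-- **The exponential moments.** -/
theorem exps {F : Type} [Field F] [Fintype F] {s : ℕ} {ι : Type} [Fintype ι] (G : Set (MvPolynomial (Fin s ⊕ ι) F))
    (Z : Set (MvPolynomial ι F)) (w : ℕ) (c : ℕ → ℝ) (C κ : ℝ) (hC : 0 < C) (hκ : 0 ≤ κ) (hfam : IsFamily G Z w c C)
    (g : ι → Polynomial F) (n : ℕ) (hn : 1 ≤ n) {J : Type} [Fintype J] (e : J → ℂ) (he : ∀ j, ‖e j‖ = 1)
    (γ : ℂ) (hγ : ‖γ‖ = Real.sqrt (Fintype.card F) ^ (w + 1)) (α : (ι → Polynomial.degreeLT F n) → Multiset ℂ) (σ : ℝ) (hσ : 0 ≤ σ) :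
    ∑ t ∈ univ.filter (fun t : ι → Polynomial.degreeLT F n => MapsTo Z (fun i => g i + (t i).1) ∧
      IsSpectrum G w c (fun i => g i + (t i).1) (κ * n) (α t)),
        Real.exp (σ * (nr (α t) e γ (2 * Real.sqrt (Fintype.card F) ^ (w + 1) / n) / (100 * (κ + C) * Fintype.card J))) ≤
      3 * Real.exp (σ + Real.exp σ) * Fintype.card (ι → Polynomial.degreeLT F n) := by
  have hn' : (1 : ℝ) ≤ n := by exact_mod_cast hn
  have hR : 0 < Real.sqrt (Fintype.card F) ^ (w + 1) := by
    have : 0 < Real.sqrt (Fintype.card F) := Real.sqrt_pos.2 (by exact_mod_cast Fintype.card_pos)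
    positivity
  obtain ⟨R, hRR⟩ : ∃ R, R = Real.sqrt (Fintype.card F) ^ (w + 1) := ⟨_, rfl⟩
  obtain ⟨S, hS⟩ : ∃ S : Finset (ι → Polynomial.degreeLT F n), S = univ.filter (fun t : ι → Polynomial.degreeLT F n =>
    MapsTo Z (fun i => g i + (t i).1) ∧ IsSpectrum G w c (fun i => g i + (t i).1) (κ * n) (α t)) := ⟨_, rfl⟩
  rw [← hS, ← hRR]
  rw [← hRR] at hR hγ
  obtain ⟨N, hN⟩ : ∃ N : (ι → Polynomial.degreeLT F n) → ℝ, N = fun t => nr (α t) e γ (2 * R / n) / (100 * (κ + C) * Fintype.card J) := ⟨_, rfl⟩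
  obtain ⟨T, hT⟩ : ∃ T : ℝ, T = Fintype.card (ι → Polynomial.degreeLT F n) := ⟨_, rfl⟩
  have hT0 : 0 ≤ T := by
    rw [hT]
    exact Nat.cast_nonneg _
  rw [← hT]
  obtain ⟨L, hL⟩ := exists_nat_ge (∑ t, |N t|)
  have hNL : ∀ t, N t ≤ L + 1 := by
    intro t
    have h1 := single_le_sum (f := fun t => |N t|) (fun _ _ => abs_nonneg _) (mem_univ t)
    have h2 := le_abs_self (N t)
    linarith
  have hlay : ∀ t ∈ S, Real.exp (σ * (nr (α t) e γ (2 * R / n) / (100 * (κ + C) * Fintype.card J))) ≤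
      Real.exp σ + ∑ K ∈ Icc 1 L, if (K : ℝ) < N t then Real.exp (σ * (K + 1)) else 0 := by
    intro t _
    have := exp_layers (N t) σ hσ L (hNL t)
    rw [hN] at this ⊢
    exact this
  refine (sum_le_sum hlay).trans ?_
  rw [sum_add_distrib, sum_const, nsmul_eq_mul, sum_comm]
  have hcardS : (S.card : ℝ) ≤ T := by
    rw [hT]
    exact_mod_cast card_le_univ S
  have hK : ∀ K ∈ Icc 1 L, ∑ t ∈ S, (if (K : ℝ) < N t then Real.exp (σ * (K + 1)) else 0) ≤ Real.exp (σ * (K + 1)) * (2 / (K : ℝ) ^ K) * T := by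
    intro K hK
    rw [mem_Icc] at hK
    have hK1 : (1 : ℝ) ≤ K := by exact_mod_cast hK.1
    rw [← sum_filter, sum_const, nsmul_eq_mul, mul_comm, mul_assoc]
    refine mul_le_mul_of_nonneg_left ?_ (Real.exp_pos _).le
    have h1 := tails G Z w c C κ hC hκ hfam g n K hn hK.1 e he γ (by rw [hγ, hRR])
    rw [← hRR, ← hT] at h1
    refine le_trans (Nat.cast_le.2 (card_le_card ?_)) h1
    intro t ht
    rw [mem_filter, hS, mem_filter] at ht
    obtain ⟨⟨-, hmap, hsp⟩, hlt⟩ := ht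
    rw [mem_filter]
    refine ⟨mem_univ _, hmap, α t, hsp, ?_⟩
    rw [hN] at hlt
    have hlt' : (K : ℝ) < nr (α t) e γ (2 * R / n) / (100 * (κ + C) * Fintype.card J) := hlt
    have hpos : 0 < 100 * (κ + C) * (Fintype.card J : ℝ) := by
      by_contra hcon
      rw [not_lt] at hcon
      have h2 : 0 ≤ 100 * (κ + C) * (Fintype.card J : ℝ) := by positivity
      have h3 : 100 * (κ + C) * (Fintype.card J : ℝ) = 0 := le_antisymm hcon h2
      rw [h3, div_zero] at hlt'
      linarith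
    rw [lt_div_iff₀ hpos] at hlt'
    have h2 : nr (α t) e γ (2 * R / n) ≤ nr (α t) e γ (2 * K * R / n) := by
      refine nr_mono _ _ _ ?_
      refine div_le_div_of_nonneg_right ?_ (by linarith)
      nlinarith
    have h3 : (nr (α t) e γ (2 * R / n) : ℝ) ≤ nr (α t) e γ (2 * K * R / n) := by exact_mod_cast h2
    have h4 : (K : ℝ) * (100 * (κ + C) * Fintype.card J) = 100 * (κ + C) * K * Fintype.card J := by ring
    linarith
  have h1 := sum_le_sum hK
  rw [← sum_mul] at h1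
  have h2 := mul_le_mul_of_nonneg_right (sum_layers σ L) hT0
  have h3 : 3 * Real.exp (σ + Real.exp σ) * T = 3 * Real.exp σ * Real.exp (Real.exp σ) * T := by
    rw [Real.exp_add]
    ring
  rw [h3]
  have h4 : Real.exp σ * T ≤ Real.exp σ * Real.exp (Real.exp σ) * T := by
    refine mul_le_mul_of_nonneg_right ?_ hT0
    exact le_mul_of_one_le_right (Real.exp_pos _).le (Real.one_le_exp (Real.exp_pos _).le)
  have h5 : (S.card : ℝ) * Real.exp σ ≤ Real.exp σ * T := by
    rw [mul_comm]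
    exact mul_le_mul_of_nonneg_left hcardS (Real.exp_pos _).le
  have h6 : 0 ≤ Real.exp σ * T := mul_nonneg (Real.exp_pos _).le hT0
  nlinarith

end Q282PB
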